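import Pool.Agent.Helper49.GP.StG

/-!
# Gilbert-Pollak, chapter GEO, module CI: insertion of several chords
-/

set_option autoImplicit false

namespace Pool.Agent.Helper49.GP

open Pool.Agent.Helper18.GP Relation Classical

theorem m_CI (h1 : stCI1) : stCI := by
  intro N V G P hT hS C
  induction C using Finset.induction_on with
  | empty =>
    intro _ _
    refine ⟨G, hT, hS, ⟨fun a _ b _ => rfl, fun B _ => rfl⟩, ?_, ?_⟩
    · intro e he
      exact absurd he (Finset.notMem_empty e)
    · intro x _ y _ h _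
      exact h
  | insert e C _ ih =>
    intro hC hX
    obtain ⟨G', hT', hS', hI', hA', hK'⟩ := ih
      (fun f hf => hC f (Finset.mem_insert_of_mem hf))
      (fun f hf g hg => hX f (Finset.mem_insert_of_mem hf) g (Finset.mem_insert_of_mem hg))
    obtain ⟨he1, he2, hne, hcl⟩ := hC e (Finset.mem_insert_self e C)
    have hcl' : Clear V G' P e.1 e.2 := by
      intro u hu hu1 hu2
      rw [hI'.1 _ he1 _ he2, hI'.1 _ he1 _ hu, hI'.1 _ hu _ he2]
      exact hcl u hu hu1 hu2
    obtain ⟨G'', hT'', hS'', hI'', hA'', hK''⟩ := h1 N V G' P hT' hS' e.1 he1 e.2 he2 hne hcl'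
    refine ⟨G'', hT'', hS'', ⟨?_, ?_⟩, ?_, ?_⟩
    · intro a ha b hb
      rw [hI''.1 a ha b hb, hI'.1 a ha b hb]
    · intro B hB
      rw [hI''.2 B hB, hI'.2 B hB]
    · intro f hf
      rcases Finset.mem_insert.1 hf with rfl | hfC
      · exact hA''
      · have hfV := hC f hf
        exact hK'' f.1 hfV.1 f.2 hfV.2.1 (hA' f hfC)
          (hX f hf e (Finset.mem_insert_self e C))
    · intro x hx y hy hxy hn
      exact hK'' x hx y hy
        (hK' x hx y hy hxy fun f hf => hn f (Finset.mem_insert_of_mem hf))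
        (hn e (Finset.mem_insert_self e C))

end Pool.Agent.Helper49.GP
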