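import Pool.Agent.Helper49.GP.StG

/-!
# Gilbert-Pollak, chapter GEO, module CI1: insertion of one clear chord by flips
-/

namespace Pool.Agent.Helper49.GP

open Pool.Agent.Helper18.GP Relation Classical

variable {N : ℕ}

/-- weight of an edge -/
private noncomputable def ff_CI1 (P : Fin N → ℂ) (v w : Fin N) (e : Fin N × Fin N) : ℝ :=
  hh P v w e.1 - hh P v w e.2

/-- total weight of the crossing edges -/
private noncomputable def Ph_CI1 (V : Finset (Fin N)) (P : Fin N → ℂ) (v w : Fin N)
    (G : SimpleGraph (Fin N)) : ℝ :=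
  ∑ e ∈ V ×ˢ V, if Cr V G v w e.1 e.2 then ff_CI1 P v w e else 0

theorem m_CI1 (hF : stFlip) (hFS : stFlipSt) (hSg : stSgn) (hX : stMax) : stCI1 := by
  intro N V G P hT hS v hv w hw hvw hcl
  set K : Set (SimpleGraph (Fin N)) := {G' | IsTri V G' ∧ St V G' P ∧ Iso V G G' P ∧
    ∀ x ∈ V, ∀ y ∈ V, G.Adj x y → ¬ Crs x y v w → G'.Adj x y} with hK
  have hKf : K.Finite := Set.toFinite K
  have hKn : K.Nonempty := ⟨G, hT, hS, ⟨fun _ _ _ _ => rfl, fun _ _ => rfl⟩,
    fun x _ y _ h _ => h⟩
  obtain ⟨G', hG'K, hmin⟩ := Set.exists_min_image K (Ph_CI1 V P v w) hKf hKn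
  obtain ⟨hT', hS', hI', hkeep⟩ := hG'K
  have hcl' : Clear V G' P v w := by
    intro u hu h1 h2
    rw [hI'.1 v hv w hw, hI'.1 v hv u hu, hI'.1 u hu w hw]
    exact hcl u hu h1 h2
  have hs : ∀ x y, Cr V G' v w x y → 0 < hh P v w x ∧ hh P v w y < 0 :=
    hSg N V G' P hT' hS' v hv w hw hcl'
  by_cases hadj : G'.Adj v w
  · exact ⟨G', hT', hS', hI', hadj, hkeep⟩
  exfalso
  -- the crossing edges
  set Cs : Finset (Fin N × Fin N) := (V ×ˢ V).filter fun e => Cr V G' v w e.1 e.2 with hCs
  have memCs : ∀ x y, Cr V G' v w x y → (x, y) ∈ Cs := by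
    intro x y h
    rw [hCs, Finset.mem_filter, Finset.mem_product]
    exact ⟨⟨h.1, h.2.1⟩, h⟩
  have hCsn : Cs.Nonempty := by
    obtain ⟨c, hc, d, hd, hcd, hcr⟩ := hT'.mx v hv w hw hvw hadj
    rcases hcr with ⟨h1, h2⟩ | ⟨h1, h2⟩
    · exact ⟨(d, c), memCs d c ⟨hd, hc, hcd.symm, h1, Ccw.rot h2⟩⟩
    · exact ⟨(c, d), memCs c d ⟨hc, hd, hcd, h1, Ccw.rot h2⟩⟩
  obtain ⟨e0, he0, hmax⟩ := Finset.exists_max_image Cs (ff_CI1 P v w) hCsn
  obtain ⟨e1, he1, hmin1⟩ := Finset.exists_min_image
    (Cs.filter fun e => ff_CI1 P v w e = ff_CI1 P v w e0)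
    (fun e => pr P v w e.1 + pr P v w e.2)
    ⟨e0, by rw [Finset.mem_filter]; exact ⟨he0, rfl⟩⟩
  obtain ⟨z, c⟩ := e1
  rw [Finset.mem_filter] at he1
  have hzc : Cr V G' v w z c := by
    have := he1.1
    rw [hCs, Finset.mem_filter] at this
    exact this.2
  have hzcf : ff_CI1 P v w (z, c) = ff_CI1 P v w e0 := he1.2
  have hopt : ∀ x y, Cr V G' v w x y → hh P v w x - hh P v w y < hh P v w z - hh P v w c ∨
      (hh P v w x - hh P v w y = hh P v w z - hh P v w c ∧
      pr P v w z + pr P v w c ≤ pr P v w x + pr P v w y) := by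
    intro x y hxy
    have h1 : ff_CI1 P v w (x, y) ≤ ff_CI1 P v w e0 := hmax _ (memCs x y hxy)
    rcases lt_or_eq_of_le h1 with h2 | h2
    · left
      have : ff_CI1 P v w (x, y) < ff_CI1 P v w (z, c) := by rw [hzcf]; exact h2
      exact this
    · right
      refine ⟨?_, ?_⟩
      · have : ff_CI1 P v w (x, y) = ff_CI1 P v w (z, c) := by rw [hzcf]; exact h2
        exact this
      · exact hmin1 (x, y) (by rw [Finset.mem_filter]; exact ⟨memCs x y hxy, h2⟩)
  obtain ⟨b, hb, d, hd, hzbc, hzcd, ezb, ebc, ecd, edz, l1, l2, l3, l4, ⟨s, hs1, t, ht1, hst⟩, p1,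
    p2⟩ := hX N V G' P hT' hS' v hv w hw hs z c hzc hopt
  have hz : z ∈ V := hzc.1
  have hc : c ∈ V := hzc.2.1
  have ezc : G'.Adj z c := hzc.2.2.1
  obtain ⟨G'', hT'', hI'', ebd, nzc, heq⟩ := hF N V G' P hT' z hz b hb c hc d hd hzbc hzcd ezb ebc
    ecd edz ezc s hs1 t ht1 hst
  have hS'' : St V G'' P := hFS N V G' G'' P hT'' hS' z hz b hb c hc d hd hzbc hzcd ezb ebc ecd
    edz ebd nzc heq p1 p2
  have hzc1 : Ccw v c w := hzc.2.2.2.1
  have hzc2 : Ccw w z v := hzc.2.2.2.2
  have hbz : b ≠ z := by clear heq hkeep hopt hs hmin; (simp only [Crs, Ccw_val, ne_eq, Fin.ext_iff] at *; omega)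
  have hdz : d ≠ z := by clear heq hkeep hopt hs hmin; (simp only [Crs, Ccw_val, ne_eq, Fin.ext_iff] at *; omega)
  have hbd : b ≠ d := by clear heq hkeep hopt hs hmin; (simp only [Crs, Ccw_val, ne_eq, Fin.ext_iff] at *; omega)
  have hG''K : G'' ∈ K := by
    refine ⟨hT'', hS'', ⟨fun x hx y hy => ?_, fun B hB => ?_⟩, ?_⟩
    · rw [hI''.1 x hx y hy, hI'.1 x hx y hy]
    · rw [hI''.2 B hB, hI'.2 B hB]
    · intro x hx y hy hxy hcr
      have h1 := hkeep x hx y hy hxy hcr
      by_cases k1 : (x = z ∧ y = c) ∨ (x = c ∧ y = z)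
      · exfalso
        apply hcr
        rcases k1 with ⟨rfl, rfl⟩ | ⟨rfl, rfl⟩
        · clear heq hkeep hopt hs hmin hcr; (simp only [Crs, Ccw_val, ne_eq, Fin.ext_iff] at *; omega)
        · clear heq hkeep hopt hs hmin hcr; (simp only [Crs, Ccw_val, ne_eq, Fin.ext_iff] at *; omega)
      · by_cases k2 : (x = b ∧ y = d) ∨ (x = d ∧ y = b)
        · rcases k2 with ⟨rfl, rfl⟩ | ⟨rfl, rfl⟩
          · exact ebd
          · exact ebd.symm
        · exact (heq x hx y hy k1 k2).2 h1
  have hle := hmin G'' hG''K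
  -- the weights
  set B1 : ℝ := if Cr V G'' v w b d then ff_CI1 P v w (b, d) else 0 with hB1
  set B2 : ℝ := if Cr V G'' v w d b then ff_CI1 P v w (d, b) else 0 with hB2
  have fnn : ∀ x y, Cr V G' v w x y → 0 < ff_CI1 P v w (x, y) := by
    intro x y h
    have := hs x y h
    change 0 < hh P v w x - hh P v w y
    linarith [this.1, this.2]
  have hBB : B1 + B2 < ff_CI1 P v w (z, c) := by
    have f0 := fnn z c hzc
    have f1 : ff_CI1 P v w (b, d) < ff_CI1 P v w (z, c) := by
      change hh P v w b - hh P v w d < hh P v w z - hh P v w c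
      linarith
    have f2 : ff_CI1 P v w (d, b) < ff_CI1 P v w (z, c) := by
      change hh P v w d - hh P v w b < hh P v w z - hh P v w c
      linarith
    by_cases k1 : Cr V G'' v w b d
    · have k2 : ¬ Cr V G'' v w d b := by
        intro k2
        have a1 := k1.2.2.2.1
        have a2 := k1.2.2.2.2
        have a3 := k2.2.2.2.1
        clear heq hkeep hopt hs hmin fnn
        (simp only [Crs, Ccw_val, ne_eq, Fin.ext_iff] at *; omega)
      rw [hB1, hB2, if_pos k1, if_neg k2]
      linarith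
    · by_cases k2 : Cr V G'' v w d b
      · rw [hB1, hB2, if_neg k1, if_pos k2]
        linarith
      · rw [hB1, hB2, if_neg k1, if_neg k2]
        linarith
  have key : ∀ e ∈ V ×ˢ V, (if Cr V G'' v w e.1 e.2 then ff_CI1 P v w e else 0) ≤
      (((if Cr V G' v w e.1 e.2 then ff_CI1 P v w e else 0) -
        (if e = (z, c) then ff_CI1 P v w (z, c) else 0)) + (if e = (b, d) then B1 else 0)) +
        (if e = (d, b) then B2 else 0) := by
    rintro ⟨x, y⟩ he
    rw [Finset.mem_product] at he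
    have hx : x ∈ V := he.1
    have hy : y ∈ V := he.2
    by_cases k1 : (x, y) = (z, c)
    · have kx : x = z := congrArg Prod.fst k1
      have ky : y = c := congrArg Prod.snd k1
      subst kx; subst ky
      have n1 : ¬ Cr V G'' v w x y := fun h => nzc h.2.2.1
      have n2 : ((x, y) : Fin N × Fin N) ≠ (b, d) := fun h => hbz (congrArg Prod.fst h).symm
      have n3 : ((x, y) : Fin N × Fin N) ≠ (d, b) := fun h => hdz (congrArg Prod.fst h).symm
      rw [if_neg n1, if_pos hzc, if_pos rfl, if_neg n2, if_neg n3]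
      linarith
    · rw [if_neg k1]
      by_cases k2 : (x, y) = (b, d)
      · have kx : x = b := congrArg Prod.fst k2
        have ky : y = d := congrArg Prod.snd k2
        subst kx; subst ky
        have n3 : ((x, y) : Fin N × Fin N) ≠ (y, x) := fun h => hbd (congrArg Prod.fst h)
        rw [if_pos rfl, if_neg n3, ← hB1]
        by_cases k3 : Cr V G' v w x y
        · rw [if_pos k3]
          have := fnn _ _ k3
          linarith
        · rw [if_neg k3]
          linarith
      · rw [if_neg k2]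
        by_cases k3 : (x, y) = (d, b)
        · have kx : x = d := congrArg Prod.fst k3
          have ky : y = b := congrArg Prod.snd k3
          subst kx; subst ky
          rw [if_pos rfl, ← hB2]
          by_cases k3 : Cr V G' v w x y
          · rw [if_pos k3]
            have := fnn _ _ k3
            linarith
          · rw [if_neg k3]
            linarith
        · rw [if_neg k3]
          by_cases k4 : Cr V G'' v w x y
          · have k5 : G'.Adj x y := by
              refine (heq x hx y hy ?_ ?_).1 k4.2.2.1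
              · rintro (⟨rfl, rfl⟩ | ⟨rfl, rfl⟩)
                · exact k1 rfl
                · exact nzc k4.2.2.1.symm
              · rintro (⟨rfl, rfl⟩ | ⟨rfl, rfl⟩)
                · exact k2 rfl
                · exact k3 rfl
            have k6 : Cr V G' v w x y := ⟨hx, hy, k5, k4.2.2.2⟩
            rw [if_pos k4, if_pos k6]
            linarith
          · rw [if_neg k4]
            by_cases k6 : Cr V G' v w x y
            · rw [if_pos k6]
              have := fnn _ _ k6
              linarith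
            · rw [if_neg k6]
              linarith
  have hsum := Finset.sum_le_sum key
  rw [Finset.sum_add_distrib, Finset.sum_add_distrib, Finset.sum_sub_distrib,
    Finset.sum_ite_eq', Finset.sum_ite_eq', Finset.sum_ite_eq',
    if_pos (Finset.mem_product.2 ⟨hz, hc⟩), if_pos (Finset.mem_product.2 ⟨hb, hd⟩),
    if_pos (Finset.mem_product.2 ⟨hd, hb⟩)] at hsum
  have e1 : Ph_CI1 V P v w G'' = ∑ e ∈ V ×ˢ V, if Cr V G'' v w e.1 e.2 then ff_CI1 P v w e else 0 :=
    rfl
  have e2 : Ph_CI1 V P v w G' = ∑ e ∈ V ×ˢ V, if Cr V G' v w e.1 e.2 then ff_CI1 P v w e else 0 :=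
    rfl
  rw [← e1, ← e2] at hsum
  linarith

end Pool.Agent.Helper49.GP
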