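import Pool.Agent.Helper49.GP.StG

/-!
# Gilbert-Pollak, chapter GEO, module CLEAR: edges of strict discs are clear
-/

namespace Pool.Agent.Helper49.GP

open Pool.Agent.Helper18.GP Relation Classical

variable {N : ℕ}

theorem dl_inj_CLEAR {a b : Fin N} (h : dl a = dl b) : a = b := by
  by_contra hab
  have h1 := congrFun h a
  rw [dl_apply, dl_apply, if_pos rfl, if_neg hab] at h1
  exact one_ne_zero h1

private theorem aux_CLEAR (hM : stMet) (hG : stGlue) (hP : stPos) (hA : stApex) (hN : stNe)
    {V : Finset (Fin N)} {G : SimpleGraph (Fin N)} {P : Fin N → ℂ} (hT : IsTri V G)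
    (hS : St V G P) (h3 : 3 ≤ V.card) {a b u : Fin N} (ha : a ∈ V) (hb : b ∈ V) (hu : u ∈ V)
    (hab : G.Adj a b) (hau : Ccw a u b) : dV V G P a b < dV V G P a u + dV V G P u b := by
  have m := hM N V G P hT
  have da := dl_mem (V := V) G ha
  have db := dl_mem (V := V) G hb
  have du := dl_mem (V := V) G hu
  have pos : ∀ x ∈ V, ∀ y ∈ V, x ≠ y → 0 < dV V G P x y := by
    intro x hx y hy hxy
    have dx := dl_mem (V := V) G hx
    have dy := dl_mem (V := V) G hy
    rcases lt_or_eq_of_le (m.nonneg _ dx _ dy) with h | h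
    · exact h
    · exact absurd (dl_inj_CLEAR (hP N V G P hT hS
        (fun p hp q hq _ hpq => hN N V G P hT hS h3 p hp q hq hpq) _ dx _ dy h.symm)) hxy
  have eab : dV V G P a b = ‖P a - P b‖ := by
    have := m.sh _ da _ db (Sh_dl hab)
    rwa [dev_dl, dev_dl] at this
  obtain ⟨c, ⟨hc, hacb, hac, hcb⟩, _⟩ := hA N V G hT a ha b hb hab ⟨u, hu, hau⟩
  have tri : 0 < crs (P c - P a) (P b - P a) := hS a ha c hc b hb hacb hac hcb hab
  have dc := dl_mem (V := V) G hc
  by_cases huc : u = c
  · subst huc
    have e1 : dV V G P a u = ‖P a - P u‖ := by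
      have := m.sh _ da _ du (Sh_dl hac)
      rwa [dev_dl, dev_dl] at this
    have e2 : dV V G P u b = ‖P u - P b‖ := by
      have := m.sh _ du _ db (Sh_dl hcb)
      rwa [dev_dl, dev_dl] at this
    rw [eab, e1, e2]
    exact strict_tri tri.ne'
  · have hcase : Ccw a u c ∨ Ccw c u b := by
      clear tri eab pos m
      (simp only [Crs, Ccw_val, ne_eq, Fin.ext_iff] at *; omega)
    rcases hcase with h | h
    · -- the edge `a c`
      have g := hG N V G P hT a ha c hc hac
      have hu' : u ∈ Arc V a c := mem_Arc_ccw.2 ⟨hu, Or.inr (Or.inr h)⟩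
      have hb' : b ∈ Arc V c a := mem_Arc_ccw.2 ⟨hb, Or.inr (Or.inr (Ccw.rot hacb))⟩
      obtain ⟨t, ht, e⟩ := g.cross _ (dl_mem G hu') _ (dl_mem G hb')
      rcases eq_or_lt_of_le ht.1 with h0 | h0
      · rw [← h0, seg_zero] at e
        have e' : dV V G P u b = dV V G P u a + dV V G P a b := e
        have h1 := pos u hu a ha (Ccw.ne1 hau).symm
        have h2 := pos a ha u hu (Ccw.ne1 hau)
        linarith
      · have ds := seg_mem ha hc hac ht
        have h1 := m.tri _ da _ du _ ds
        have s1 : Sh G (dl a) (seg a c t) := Sh_of_tri hac hcb hab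
          (fun v hv => Or.inl (dl_ne hv))
          (fun v hv => (seg_ne hv).elim Or.inl (fun h => Or.inr (Or.inl h)))
        have s2 : Sh G (seg a c t) (dl b) := Sh_of_tri hac hcb hab
          (fun v hv => (seg_ne hv).elim Or.inl (fun h => Or.inr (Or.inl h)))
          (fun v hv => Or.inr (Or.inr (dl_ne hv)))
        have e1 := m.sh _ da _ ds s1
        have e2 := m.sh _ ds _ db s2
        rw [dev_dl, dev_seg] at e1 e2
        have h2 : crs (((1 - t : ℝ) : ℂ) * P a + (t : ℂ) * P c - P a) (P b - P a) ≠ 0 := by
          have : ((1 - t : ℝ) : ℂ) * P a + (t : ℂ) * P c - P a = (t : ℂ) * (P c - P a) := by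
            push_cast; ring
          rw [this, mul_crs]
          exact (mul_pos h0 tri).ne'
        have h4 := strict_tri h2
        rw [← e1, ← e2, ← eab] at h4
        have e' : dV V G P u b = dK V G P (dl u) (seg a c t) + dK V G P (seg a c t) (dl b) := e
        have h5 : dV V G P a u = dK V G P (dl a) (dl u) := rfl
        linarith
    · -- the edge `c b`
      have g := hG N V G P hT c hc b hb hcb
      have hu' : u ∈ Arc V c b := mem_Arc_ccw.2 ⟨hu, Or.inr (Or.inr h)⟩
      have ha' : a ∈ Arc V b c := mem_Arc_ccw.2 ⟨ha, Or.inr (Or.inr (Ccw.rot' hacb))⟩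
      obtain ⟨t, ht, e⟩ := g.cross _ (dl_mem G hu') _ (dl_mem G ha')
      have sy : dV V G P a u = dV V G P u a := m.symm _ da _ du
      have e0 : dV V G P u a = dK V G P (dl u) (seg c b t) + dK V G P (seg c b t) (dl a) := e
      rcases eq_or_lt_of_le ht.2 with h0 | h0
      · rw [h0, seg_one] at e
        have e' : dV V G P u a = dV V G P u b + dV V G P b a := e
        have h1 := pos u hu b hb (Ccw.ne2 hau)
        have h2 : dV V G P b a = dV V G P a b := m.symm _ db _ da
        linarith
      · have ds := seg_mem hc hb hcb ht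
        have h1 := m.tri _ ds _ du _ db
        have s1 : Sh G (dl a) (seg c b t) := Sh_of_tri hac hcb hab
          (fun v hv => Or.inl (dl_ne hv))
          (fun v hv => Or.inr (seg_ne hv))
        have s2 : Sh G (seg c b t) (dl b) := Sh_of_tri hac hcb hab
          (fun v hv => Or.inr (seg_ne hv))
          (fun v hv => Or.inr (Or.inr (dl_ne hv)))
        have e1 := m.sh _ da _ ds s1
        have e2 := m.sh _ ds _ db s2
        rw [dev_dl, dev_seg] at e1 e2
        have h2 : crs (((1 - t : ℝ) : ℂ) * P c + (t : ℂ) * P b - P a) (P b - P a) ≠ 0 := by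
          have : ((1 - t : ℝ) : ℂ) * P c + (t : ℂ) * P b - P a =
              ((1 - t : ℝ) : ℂ) * (P c - P a) + (t : ℂ) * (P b - P a) := by
            push_cast; ring
          rw [this, add_crs, mul_crs, mul_crs, crs_self, mul_zero, add_zero]
          exact (mul_pos (by linarith) tri).ne'
        have h4 := strict_tri h2
        rw [← e1, ← e2, ← eab] at h4
        have h5 : dV V G P u b = dK V G P (dl u) (dl b) := rfl
        have h6 : dK V G P (seg c b t) (dl a) = dK V G P (dl a) (seg c b t) :=
          m.symm _ ds _ da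
        have h7 : dK V G P (seg c b t) (dl u) = dK V G P (dl u) (seg c b t) :=
          m.symm _ ds _ du
        linarith

theorem m_ClearEdge (hM : stMet) (hG : stGlue) (hP : stPos) (hA : stApex) (hN : stNe) :
    stClearEdge := by
  intro N V G P hT hS h3 a ha b hb hab u hu hua hub
  have m := hM N V G P hT
  have hc : Ccw a u b ∨ Ccw b u a := by
    have hne := hab.ne
    clear m
    (simp only [Crs, Ccw_val, ne_eq, Fin.ext_iff] at *; omega)
  rcases hc with h | h
  · exact aux_CLEAR hM hG hP hA hN hT hS h3 ha hb hu hab h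
  · have h1 := aux_CLEAR hM hG hP hA hN hT hS h3 hb ha hu hab.symm h
    have da := dl_mem (V := V) G ha
    have db := dl_mem (V := V) G hb
    have du := dl_mem (V := V) G hu
    have e1 : dV V G P b a = dV V G P a b := m.symm _ db _ da
    have e2 : dV V G P b u = dV V G P u b := m.symm _ db _ du
    have e3 : dV V G P u a = dV V G P a u := m.symm _ du _ da
    linarith

end Pool.Agent.Helper49.GP
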