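import Pool.Agent.Helper49.GP.StG

/-!
# Gilbert-Pollak, chapter GEO, module ENTER
-/

namespace Pool.Agent.Helper49.GP

open Pool.Agent.Helper18.GP Relation Classical

private theorem dl_supp_ENTER {N : ℕ} {a b y p : Fin N} (h : p = a ∨ p = b ∨ p = y) (v : Fin N)
    (hv : (dl p : Fin N → ℝ) v ≠ 0) : v = a ∨ v = b ∨ v = y := by
  have := dl_ne hv
  subst this
  exact h

private theorem seg_supp_ENTER {N : ℕ} {a b y p q : Fin N} {t : ℝ}
    (hp : p = a ∨ p = b ∨ p = y) (hq : q = a ∨ q = b ∨ q = y) (v : Fin N)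
    (hv : seg p q t v ≠ 0) : v = a ∨ v = b ∨ v = y := by
  rcases seg_ne hv with rfl | rfl
  · exact hp
  · exact hq

theorem m_Enter (hM : stMet) (hG : stGlue) (hA : stApex) : stEnter := by
  intro N V G P hT hSt a ha b hb hab c hc hacb t ht0 ht1
  have met := hM N V G P hT
  obtain ⟨y, ⟨hyV, hayb, hay, hyb⟩, -⟩ := hA N V G hT a ha b hb hab ⟨c, hc, hacb⟩
  have hpos : 0 < crs (P y - P a) (P b - P a) := hSt a ha y hyV b hb hayb hay hyb hab
  have hneg : crs (P b - P a) (P y - P a) < 0 := by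
    rw [crs_flip']
    linarith
  have htI : t ∈ Set.Icc (0 : ℝ) 1 := ⟨ht0.le, ht1.le⟩
  have hξ : seg a b t ∈ Pts V G := seg_mem ha hb hab htI
  have hsξ : ∀ v, seg a b t v ≠ 0 → v = a ∨ v = b ∨ v = y :=
    seg_supp_ENTER (Or.inl rfl) (Or.inr (Or.inl rfl))
  have hda := fun v => dl_supp_ENTER (a := a) (b := b) (y := y) (p := a) (Or.inl rfl) v
  have hdb := fun v => dl_supp_ENTER (a := a) (b := b) (y := y) (p := b) (Or.inr (Or.inl rfl)) v
  -- a point of the triangle off the line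
  have third : ∀ r ∈ Pts V G, (∀ v, r v ≠ 0 → v = a ∨ v = b ∨ v = y) → 0 < r y →
      dK V G P (dl c) (seg a b t) = dK V G P (dl c) r + dK V G P r (seg a b t) →
      ∃ r ∈ Pts V G, Sh G (dl a) r ∧ Sh G (dl b) r ∧ Sh G r (seg a b t) ∧
        crs (P b - P a) (dev P r - P a) < 0 ∧
        dK V G P (dl c) (seg a b t) = dK V G P (dl c) r + ‖dev P r - dev P (seg a b t)‖ := by
    intro r hr hs hry he
    have hsh : Sh G r (seg a b t) := Sh_of_tri hab hyb.symm hay hs hsξ
    refine ⟨r, hr, Sh_of_tri hab hyb.symm hay hda hs, Sh_of_tri hab hyb.symm hay hdb hs, hsh, ?_, ?_⟩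
    · rw [crs_dev_tri P hr.2.1 hs]
      exact mul_neg_of_pos_of_neg hry hneg
    · rw [he, met.sh r hr _ hξ hsh]
  by_cases hcy : c = y
  · subst hcy
    right; right
    refine third (dl c) (dl_mem G hc) (fun v hv => dl_supp_ENTER (Or.inr (Or.inr rfl)) v hv) ?_ ?_
    · rw [dl_apply, if_pos rfl]
      norm_num
    · rw [met.self _ (dl_mem G hc), zero_add]
  have hcase : Ccw a c y ∨ Ccw y c b := by
    simp only [Ccw_val, Fin.ext_iff] at *
    omega
  have hya : y ≠ a := by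
    simp only [Ccw_val, ne_eq, Fin.ext_iff] at *
    omega
  have hyb' : y ≠ b := by
    simp only [Ccw_val, ne_eq, Fin.ext_iff] at *
    omega
  rcases hcase with h | h
  · have glue := hG N V G P hT a ha y hyV hay
    have m1 : c ∈ Arc V a y := mem_Arc_ccw.2 ⟨hc, Or.inr (Or.inr h)⟩
    have m2 : a ∈ Arc V y a := mem_Arc_ccw.2 ⟨ha, Or.inr (Or.inl rfl)⟩
    have m3 : b ∈ Arc V y a := mem_Arc_ccw.2 ⟨hb, Or.inr (Or.inr (Pool.Agent.Helper49.GP.Ccw.rot hayb))⟩
    obtain ⟨t', ht', he⟩ := glue.cross (dl c) (dl_mem G m1) (seg a b t) (seg_mem m2 m3 hab htI)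
    rcases ht'.1.eq_or_lt with h0 | h0
    · left
      rw [← h0, seg_zero] at he
      exact he
    · right; right
      refine third (seg a y t') (seg_mem ha hyV hay ht')
        (seg_supp_ENTER (Or.inl rfl) (Or.inr (Or.inr rfl))) ?_ he
      rw [seg_apply, if_neg hya, if_pos rfl]
      linarith
  · have glue := hG N V G P hT y hyV b hb hyb
    have m1 : c ∈ Arc V y b := mem_Arc_ccw.2 ⟨hc, Or.inr (Or.inr h)⟩
    have m2 : a ∈ Arc V b y := mem_Arc_ccw.2 ⟨ha, Or.inr (Or.inr (Pool.Agent.Helper49.GP.Ccw.rot' hayb))⟩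
    have m3 : b ∈ Arc V b y := mem_Arc_ccw.2 ⟨hb, Or.inl rfl⟩
    obtain ⟨t', ht', he⟩ := glue.cross (dl c) (dl_mem G m1) (seg a b t) (seg_mem m2 m3 hab htI)
    rcases ht'.2.eq_or_lt with h1 | h1
    · right; left
      rw [h1, seg_one] at he
      exact he
    · right; right
      refine third (seg y b t') (seg_mem hyV hb hyb ht')
        (seg_supp_ENTER (Or.inr (Or.inr rfl)) (Or.inr (Or.inl rfl))) ?_ he
      rw [seg_apply, if_pos rfl, if_neg hyb']
      linarith

end Pool.Agent.Helper49.GP
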