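import Pool.Agent.Helper49.GP.StG

/-!
# Gilbert-Pollak, GEO: how a chain passes through a point which is not a vertex
-/

namespace Pool.Agent.Helper49.GP

open Pool.Agent.Helper18.GP Relation Classical

variable {N : ℕ}

private theorem asym_FACE {a b p : Fin N} (h1 : Ccw a p b) (h2 : Ccw b p a) : False := by (simp only [Crs, Ccw_val, ne_eq, Fin.ext_iff] at *; omega)

/-- a common neighbour of the three vertices of a face does not exist -/
private theorem supp_FACE (h1 : stNbr) {V : Finset (Fin N)} {G : SimpleGraph (Fin N)}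
    (h : IsTri V G) {a b p v : Fin N} (ha : a ∈ V) (hb : b ∈ V) (hp : p ∈ V) (hv : v ∈ V)
    (hab : G.Adj a b) (hap : G.Adj a p) (hpb : G.Adj p b) (hav : G.Adj a v) (hvb : G.Adj v b)
    (hpv : G.Adj p v) (hc : Ccw a p b) : False := by
  rcases h1 N V G h a ha b hb v hv p hp hab hav hvb hap hpb hpv.ne' with ⟨_, c2⟩ | ⟨c1, _⟩
  · exact asym_FACE hc c2
  · exact h.nc a ha b hb p hp v hv hab hpv (Or.inl ⟨hc, Ccw.rot' c1⟩)

/-- the support of a point between the two sides -/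
private theorem supz_FACE (h1 : stNbr) {V : Finset (Fin N)} {G : SimpleGraph (Fin N)}
    (h : IsTri V G) {a b p q v : Fin N} (ha : a ∈ V) (hb : b ∈ V) (hp : p ∈ V) (hq : q ∈ V)
    (hv : v ∈ V) (hab : G.Adj a b) (hap : G.Adj a p) (hpb : G.Adj p b) (haq : G.Adj a q)
    (hqb : G.Adj q b) (hav : G.Adj a v) (hvb : G.Adj v b)
    (hvp : v ≠ p) (hvq : v ≠ q) (hc : Ccw a p b) (hc' : Ccw b q a) : False := by
  rcases h1 N V G h a ha b hb v hv p hp hab hav hvb hap hpb hvp with ⟨_, c2⟩ | ⟨c1, _⟩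
  · exact asym_FACE hc c2
  · rcases h1 N V G h a ha b hb v hv q hq hab hav hvb haq hqb hvq with ⟨c3, _⟩ | ⟨_, c4⟩
    · exact asym_FACE c3 c1
    · exact asym_FACE hc' c4

private theorem zseg_FACE {V : Finset (Fin N)} {G : SimpleGraph (Fin N)} {z : Fin N → ℝ}
    (hz : z ∈ Pts V G) {a b : Fin N} (hab : a ≠ b) (h0a : z a ≠ 0) (h0b : z b ≠ 0)
    (hs : ∀ v, z v ≠ 0 → v = a ∨ v = b) : 0 < z b ∧ z b < 1 ∧ z = seg a b (z b) := by
  have hb : 0 < z b := lt_of_le_of_ne (hz.1 b) (Ne.symm h0b)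
  have ha : 0 < z a := lt_of_le_of_ne (hz.1 a) (Ne.symm h0a)
  have hsum : z a + z b = 1 := by
    rw [← hz.2.1, ← Finset.sum_pair hab]
    apply Finset.sum_subset (Finset.subset_univ _)
    intro v _ hv
    by_contra hne
    apply hv
    rw [Finset.mem_insert, Finset.mem_singleton]
    exact hs v hne
  refine ⟨hb, by linarith, ?_⟩
  funext v
  rw [seg_apply]
  by_cases e1 : v = a
  · subst e1
    rw [if_pos rfl, if_neg hab]
    linarith
  · by_cases e2 : v = b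
    · subst e2
      rw [if_neg e1, if_pos rfl]
      ring
    · rw [if_neg e1, if_neg e2]
      by_contra hne
      rcases hs v (by intro h0; apply hne; rw [h0]; ring) with e | e
      · exact e1 e
      · exact e2 e

/-- the main part, with the vertices in the right order -/
private theorem main_FACE (h1 : stNbr) {V : Finset (Fin N)} {G : SimpleGraph (Fin N)}
    (h : IsTri V G) {x y z : Fin N → ℝ} (hx : x ∈ Pts V G) (hz : z ∈ Pts V G) (hy : y ∈ Pts V G)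
    (hxz : Sh G x z) (hzy : Sh G z y) {p q a b : Fin N} (hpq : p ≠ q) (hnp : ¬ G.Adj p q)
    (hxp : x p ≠ 0) (hyq : y q ≠ 0) (hab : a ≠ b) (hza : z a ≠ 0) (hzb : z b ≠ 0)
    (hc1 : Ccw a p b) (hc2 : Ccw b q a) :
    ∃ a ∈ V, ∃ b ∈ V, ∃ p ∈ V, ∃ q ∈ V, ∃ t : ℝ, 0 < t ∧ t < 1 ∧ z = seg a b t ∧
      G.Adj a b ∧ G.Adj a p ∧ G.Adj p b ∧ G.Adj a q ∧ G.Adj q b ∧ Ccw a p b ∧ Ccw b q a ∧
      0 < x p ∧ 0 < y q ∧ (∀ v, x v ≠ 0 → v = a ∨ v = b ∨ v = p) ∧
      (∀ v, y v ≠ 0 → v = a ∨ v = b ∨ v = q) := by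
  have hpV : p ∈ V := hx.2.2.1 p hxp
  have hqV : q ∈ V := hy.2.2.1 q hyq
  have haV : a ∈ V := hz.2.2.1 a hza
  have hbV : b ∈ V := hz.2.2.1 b hzb
  have hsp : ∀ s, z s ≠ 0 → s ≠ p := by
    rintro s hs rfl
    exact hnp (hzy s q (Or.inl hs) (Or.inr hyq) hpq)
  have hsq : ∀ s, z s ≠ 0 → s ≠ q := by
    rintro s hs rfl
    exact hnp (hxz p s (Or.inl hxp) (Or.inr hs) hpq)
  have hap : ∀ s, z s ≠ 0 → G.Adj s p := fun s hs =>
    (hxz p s (Or.inl hxp) (Or.inr hs) (Ne.symm (hsp s hs))).symm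
  have haq : ∀ s, z s ≠ 0 → G.Adj s q := fun s hs =>
    hzy s q (Or.inl hs) (Or.inr hyq) (hsq s hs)
  have hadj : G.Adj a b := hz.2.2.2 a b hza hzb hab
  have hsupz : ∀ v, z v ≠ 0 → v = a ∨ v = b := by
    intro v hv
    by_contra hcon
    rw [not_or] at hcon
    exact supz_FACE h1 h haV hbV hpV hqV (hz.2.2.1 v hv) hadj (hap a hza) (hap b hzb).symm
      (haq a hza) (haq b hzb).symm (hz.2.2.2 a v hza hv (Ne.symm hcon.1))
      (hz.2.2.2 v b hv hzb hcon.2) (hsp v hv) (hsq v hv) hc1 hc2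
  obtain ⟨ht0, ht1, hseg⟩ := zseg_FACE hz hab hza hzb hsupz
  refine ⟨a, haV, b, hbV, p, hpV, q, hqV, z b, ht0, ht1, hseg, hadj, hap a hza,
    (hap b hzb).symm, haq a hza, (haq b hzb).symm, hc1, hc2,
    lt_of_le_of_ne (hx.1 p) (Ne.symm hxp), lt_of_le_of_ne (hy.1 q) (Ne.symm hyq), ?_, ?_⟩
  · intro v hv
    by_contra hcon
    rw [not_or, not_or] at hcon
    obtain ⟨n1, n2, n3⟩ := hcon
    exact supp_FACE h1 h haV hbV hpV (hx.2.2.1 v hv) hadj (hap a hza) (hap b hzb).symm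
      (hxz v a (Or.inl hv) (Or.inr hza) n1).symm (hxz v b (Or.inl hv) (Or.inr hzb) n2)
      (hx.2.2.2 p v hxp hv (Ne.symm n3)) hc1
  · intro v hv
    by_contra hcon
    rw [not_or, not_or] at hcon
    obtain ⟨n1, n2, n3⟩ := hcon
    exact supp_FACE h1 h hbV haV hqV (hy.2.2.1 v hv) hadj.symm (haq b hzb) (haq a hza).symm
      (hzy b v (Or.inl hzb) (Or.inr hv) (Ne.symm n2))
      (hzy a v (Or.inl hza) (Or.inr hv) (Ne.symm n1)).symm
      (hy.2.2.2 q v hyq hv (Ne.symm n3)) hc2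

theorem m_Face (h1 : stNbr) : stFace := by
  intro N V G h x hx z hz y hy hxz hzy hnot hdl
  -- the two vertices which are not adjacent
  obtain ⟨p, q, hxp, hyq, hpq, hnp⟩ : ∃ p q, x p ≠ 0 ∧ y q ≠ 0 ∧ p ≠ q ∧ ¬ G.Adj p q := by
    unfold Sh at hnot
    push Not at hnot
    obtain ⟨p, q, hp, hq, hpq, hnp⟩ := hnot
    rcases hp with hp | hp <;> rcases hq with hq | hq
    · exact absurd (hx.2.2.2 p q hp hq hpq) hnp
    · exact ⟨p, q, hp, hq, hpq, hnp⟩
    · exact ⟨q, p, hq, hp, Ne.symm hpq, fun h => hnp h.symm⟩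
    · exact absurd (hy.2.2.2 p q hp hq hpq) hnp
  -- two vertices in the support of `z`
  obtain ⟨a, hza⟩ : ∃ a, z a ≠ 0 := by
    by_contra hcon
    push Not at hcon
    have := hz.2.1
    rw [Finset.sum_eq_zero (fun v _ => hcon v)] at this
    exact zero_ne_one this
  obtain ⟨b, hab, hzb⟩ : ∃ b, a ≠ b ∧ z b ≠ 0 := by
    by_contra hcon
    push Not at hcon
    apply hdl a (hz.2.2.1 a hza)
    have hsum := hz.2.1
    rw [Finset.sum_eq_single a (fun v _ hv => hcon v (Ne.symm hv))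
      (fun h => absurd (Finset.mem_univ _) h)] at hsum
    funext v
    rw [dl_apply]
    by_cases e : v = a
    · rw [if_pos e, e, hsum]
    · rw [if_neg e, hcon v (Ne.symm e)]
  have hpV : p ∈ V := hx.2.2.1 p hxp
  have hqV : q ∈ V := hy.2.2.1 q hyq
  have haV : a ∈ V := hz.2.2.1 a hza
  have hbV : b ∈ V := hz.2.2.1 b hzb
  have hsp : ∀ s, z s ≠ 0 → s ≠ p := by
    rintro s hs rfl
    exact hnp (hzy s q (Or.inl hs) (Or.inr hyq) hpq)
  have hsq : ∀ s, z s ≠ 0 → s ≠ q := by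
    rintro s hs rfl
    exact hnp (hxz p s (Or.inl hxp) (Or.inr hs) hpq)
  have hap : ∀ s, z s ≠ 0 → G.Adj s p := fun s hs =>
    (hxz p s (Or.inl hxp) (Or.inr hs) (Ne.symm (hsp s hs))).symm
  have haq : ∀ s, z s ≠ 0 → G.Adj s q := fun s hs =>
    hzy s q (Or.inl hs) (Or.inr hyq) (hsq s hs)
  have hadj : G.Adj a b := hz.2.2.2 a b hza hzb hab
  rcases h1 N V G h a haV b hbV p hpV q hqV hadj (hap a hza) (hap b hzb).symm (haq a hza)
    (haq b hzb).symm hpq with ⟨c1, c2⟩ | ⟨c1, c2⟩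
  · exact main_FACE h1 h hx hz hy hxz hzy hpq hnp hxp hyq hab hza hzb c1 c2
  · exact main_FACE h1 h hx hz hy hxz hzy hpq hnp hxp hyq (Ne.symm hab) hzb hza c1 c2

end Pool.Agent.Helper49.GP
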