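import Pool.Agent.Helper49.GP.StG

/-!
# Gilbert-Pollak, chapter GEO, module FST: a flip keeps the strict orientation
-/

namespace Pool.Agent.Helper49.GP

open Pool.Agent.Helper18.GP Relation Classical

theorem m_FlipSt (h1 : stNbr) : stFlipSt := by
  intro N V G G' P hT hS a ha b hb c hc d hd habc hacd eab ebc ecd eda gbd gac heq p1 p2
  have hba : b ≠ a := by (simp only [Crs, Ccw_val, ne_eq, Fin.ext_iff] at *; omega)
  have hca : c ≠ a := by (simp only [Crs, Ccw_val, ne_eq, Fin.ext_iff] at *; omega)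
  have hda : d ≠ a := by (simp only [Crs, Ccw_val, ne_eq, Fin.ext_iff] at *; omega)
  have hbc : b ≠ c := by (simp only [Crs, Ccw_val, ne_eq, Fin.ext_iff] at *; omega)
  have hcd : c ≠ d := by (simp only [Crs, Ccw_val, ne_eq, Fin.ext_iff] at *; omega)
  have hbd : b ≠ d := by (simp only [Crs, Ccw_val, ne_eq, Fin.ext_iff] at *; omega)
  have c1 : Ccw b c d := by (simp only [Crs, Ccw_val, ne_eq, Fin.ext_iff] at *; omega)
  have c2 : Ccw d a b := by (simp only [Crs, Ccw_val, ne_eq, Fin.ext_iff] at *; omega)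
  -- from `G'` to `G`
  have toG : ∀ u ∈ V, ∀ v ∈ V, G'.Adj u v → ¬ ((u = b ∧ v = d) ∨ (u = d ∧ v = b)) →
      G.Adj u v := by
    intro u hu v hv h hbd
    refine (heq u hu v hv ?_ hbd).1 h
    rintro (⟨rfl, rfl⟩ | ⟨rfl, rfl⟩)
    · exact gac h
    · exact gac h.symm
  have frG : ∀ u ∈ V, ∀ v ∈ V, G.Adj u v → ¬ ((u = a ∧ v = c) ∨ (u = c ∧ v = a)) →
      ¬ ((u = b ∧ v = d) ∨ (u = d ∧ v = b)) → G'.Adj u v :=
    fun u hu v hv h h1 h2 => (heq u hu v hv h1 h2).2 h
  have gab : G'.Adj a b := frG a ha b hb eab (by tauto) (by tauto)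
  have gbc : G'.Adj b c := frG b hb c hc ebc (by tauto) (by tauto)
  have gcd : G'.Adj c d := frG c hc d hd ecd (by tauto) (by tauto)
  have gda : G'.Adj d a := frG d hd a ha eda (by tauto) (by tauto)
  -- common neighbours of `b` and `d`
  have nb : ∀ r ∈ V, G'.Adj b r → G'.Adj r d → r = a ∨ r = c := by
    intro r hr h2 h3
    by_contra hcon
    rw [not_or] at hcon
    have k1 := h1 N V G' hT b hb d hd r hr a ha gbd h2 h3 gab.symm gda.symm hcon.1
    have k2 := h1 N V G' hT b hb d hd r hr c hc gbd h2 h3 gbc gcd hcon.2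
    clear heq toG frG
    (simp only [Crs, Ccw_val, ne_eq, Fin.ext_iff] at *; omega)
  have q1 : 0 < crs (P d - P b) (P a - P b) := by rw [← crs_rot]; exact p1
  have q2 : 0 < crs (P a - P d) (P b - P d) := by rw [← crs_rot']; exact p1
  have q3 : 0 < crs (P d - P c) (P b - P c) := by rw [← crs_rot]; exact p2
  have q4 : 0 < crs (P b - P d) (P c - P d) := by rw [← crs_rot']; exact p2
  intro x hx y hy z hz hxyz exy eyz exz
  by_cases k1 : (x = b ∧ y = d) ∨ (x = d ∧ y = b)
  · rcases k1 with ⟨rfl, rfl⟩ | ⟨rfl, rfl⟩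
    · rcases nb z hz exz eyz.symm with rfl | rfl
      · exact q1
      · exfalso; clear heq toG frG nb; (simp only [Crs, Ccw_val, ne_eq, Fin.ext_iff] at *; omega)
    · rcases nb z hz eyz exz.symm with rfl | rfl
      · exfalso; clear heq toG frG nb; (simp only [Crs, Ccw_val, ne_eq, Fin.ext_iff] at *; omega)
      · exact q4
  · by_cases k2 : (y = b ∧ z = d) ∨ (y = d ∧ z = b)
    · rcases k2 with ⟨rfl, rfl⟩ | ⟨rfl, rfl⟩
      · rcases nb x hx exy.symm exz with rfl | rfl
        · exact p1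
        · exfalso; clear heq toG frG nb; (simp only [Crs, Ccw_val, ne_eq, Fin.ext_iff] at *; omega)
      · rcases nb x hx exz.symm exy with rfl | rfl
        · exfalso; clear heq toG frG nb; (simp only [Crs, Ccw_val, ne_eq, Fin.ext_iff] at *; omega)
        · exact q3
    · by_cases k3 : (x = b ∧ z = d) ∨ (x = d ∧ z = b)
      · rcases k3 with ⟨rfl, rfl⟩ | ⟨rfl, rfl⟩
        · rcases nb y hy exy eyz with rfl | rfl
          · exfalso; clear heq toG frG nb; (simp only [Crs, Ccw_val, ne_eq, Fin.ext_iff] at *; omega)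
          · exact p2
        · rcases nb y hy eyz.symm exy.symm with rfl | rfl
          · exact q2
          · exfalso; clear heq toG frG nb; (simp only [Crs, Ccw_val, ne_eq, Fin.ext_iff] at *; omega)
      · exact hS x hx y hy z hz hxyz (toG x hx y hy exy k1) (toG y hy z hz eyz k2)
          (toG x hx z hz exz k3)

end Pool.Agent.Helper49.GP
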