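import Pool.Agent.Helper49.GP.StG

/-! Gilbert-Pollak, chapter GEO, module MAX: the highest crossing edge can be flipped. -/

namespace Pool.Agent.Helper49.GP

open Pool.Agent.Helper18.GP Relation Classical

variable {N : ℕ}

private theorem dt_self_pos {D : ℂ} (hD : D ≠ 0) : 0 < dt D D := by
  have h : D.re ≠ 0 ∨ D.im ≠ 0 := by
    by_contra hcon
    push Not at hcon
    exact hD (Complex.ext hcon.1 hcon.2)
  unfold dt
  rcases h with h | h
  · have := mul_self_pos.2 h
    nlinarith [mul_self_nonneg D.im]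
  · have := mul_self_pos.2 h
    nlinarith [mul_self_nonneg D.re]

/-- a vector parallel to `D` -/
private theorem par {D z : ℂ} (hD : D ≠ 0) (h : crs D z = 0) :
    z = ((dt D z / dt D D : ℝ) : ℂ) * D := by
  have hp := dt_self_pos hD
  unfold crs at h
  apply Complex.ext
  · rw [Complex.re_ofReal_mul, div_mul_eq_mul_div, eq_div_iff hp.ne']
    unfold dt
    linear_combination (-D.im) * h
  · rw [Complex.im_ofReal_mul, div_mul_eq_mul_div, eq_div_iff hp.ne']
    unfold dt
    linear_combination D.re * h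

private theorem hh_sub (P : Fin N → ℂ) (v w a b : Fin N) :
    crs (P w - P v) (P a - P b) = hh P v w a - hh P v w b := by
  unfold hh crs
  simp only [Complex.sub_re, Complex.sub_im]
  ring

private theorem pr_sub (P : Fin N → ℂ) (v w a b : Fin N) :
    dt (P w - P v) (P a - P b) = pr P v w a - pr P v w b := by
  unfold pr dt
  simp only [Complex.sub_re, Complex.sub_im]
  ring

/-- points at the same height -/
private theorem same_height (P : Fin N → ℂ) {v w a b : Fin N} (hD : P w - P v ≠ 0)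
    (h : hh P v w a = hh P v w b) (hp : pr P v w b ≤ pr P v w a) :
    ∃ κ : ℝ, 0 ≤ κ ∧ P a - P b = (κ : ℂ) * (P w - P v) := by
  have h1 : crs (P w - P v) (P a - P b) = 0 := by rw [hh_sub, h, sub_self]
  refine ⟨_, ?_, par hD h1⟩
  apply div_nonneg
  · rw [pr_sub]; linarith
  · exact (dt_self_pos hD).le

theorem m_Max (hA : stApex) : stMax := by
  intro N V G P hT hSt v hv w hw hs z c hzc hmax
  obtain ⟨hzV, hcV, hAzc, hvcw, hwzv⟩ := hzc
  have hzc : Cr V G v w z c := ⟨hzV, hcV, hAzc, hvcw, hwzv⟩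
  obtain ⟨hz0, hc0⟩ := hs z c hzc
  -- the two neighbours
  have hzvc : Ccw z v c := by
    simp only [Ccw_val] at *
    omega
  have hcwz : Ccw c w z := by
    simp only [Ccw_val] at *
    omega
  obtain ⟨b, ⟨hbV, hzbc, hAzb, hAbc⟩, -⟩ := hA N V G hT z hzV c hcV hAzc ⟨v, hv, hzvc⟩
  obtain ⟨d, ⟨hdV, hcdz, hAcd, hAdz⟩, -⟩ := hA N V G hT c hcV z hzV hAzc.symm ⟨w, hw, hcwz⟩
  have hzcd : Ccw z c d := by
    simp only [Ccw_val] at *
    omega
  have hpos1 := hSt z hzV b hbV c hcV hzbc hAzb hAbc hAzc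
  have hpos2 := hSt c hcV d hdV z hzV hcdz hAcd hAdz hAzc.symm
  have hD : P w - P v ≠ 0 := by
    intro h
    unfold hh at hz0
    rw [h, zero_crs] at hz0
    exact lt_irrefl _ hz0
  have hv0 : hh P v w v = 0 := by unfold hh; rw [sub_self, crs_zero]
  have hw0 : hh P v w w = 0 := by unfold hh; rw [crs_self]
  -- claim 1
  have hcl1 : hh P v w c < hh P v w b ∧ hh P v w b < hh P v w z := by
    have hcase : b = v ∨ Ccw w b v ∨ Ccw v b w := by
      simp only [Ccw_val, Fin.ext_iff] at *
      omega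
    rcases hcase with rfl | hwbv | hvbw
    · rw [hv0]
      exact ⟨hc0, hz0⟩
    · have hcr : Cr V G v w b c := ⟨hbV, hcV, hAbc, hvcw, hwbv⟩
      obtain ⟨h1, -⟩ := hs b c hcr
      refine ⟨by linarith, ?_⟩
      rcases hmax b c hcr with h2 | ⟨h2, h3⟩
      · linarith
      · exfalso
        obtain ⟨κ, hκ, e⟩ := same_height P hD (a := b) (b := z) (by linarith) (by linarith)
        rw [e, mul_crs, hh_sub] at hpos1
        nlinarith [mul_nonneg hκ (by linarith : 0 ≤ hh P v w z - hh P v w c)]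
    · have hcr : Cr V G v w z b := ⟨hzV, hbV, hAzb, hvbw, hwzv⟩
      obtain ⟨-, h1⟩ := hs z b hcr
      refine ⟨?_, by linarith⟩
      rcases hmax z b hcr with h2 | ⟨h2, h3⟩
      · linarith
      · exfalso
        obtain ⟨κ, hκ, e⟩ := same_height P hD (a := b) (b := c) (by linarith) (by linarith)
        have e2 : crs (P b - P z) (P c - P z) = crs (P b - P c) (P c - P z) := by
          unfold crs
          simp only [Complex.sub_re, Complex.sub_im]
          ring
        rw [e2, e, mul_crs, hh_sub] at hpos1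
        nlinarith [mul_nonneg hκ (by linarith : 0 ≤ hh P v w z - hh P v w c)]
  -- claim 2
  have hcl2 : hh P v w c ≤ hh P v w d ∧ hh P v w d ≤ hh P v w z := by
    have hcase : d = w ∨ Ccw w d v ∨ Ccw v d w := by
      simp only [Ccw_val, Fin.ext_iff] at *
      omega
    rcases hcase with rfl | hwdv | hvdw
    · rw [hw0]
      exact ⟨hc0.le, hz0.le⟩
    · have hcr : Cr V G v w d c := ⟨hdV, hcV, hAcd.symm, hvcw, hwdv⟩
      obtain ⟨h1, -⟩ := hs d c hcr
      refine ⟨by linarith, ?_⟩
      rcases hmax d c hcr with h2 | ⟨h2, h3⟩ <;> linarith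
    · have hcr : Cr V G v w z d := ⟨hzV, hdV, hAdz.symm, hvdw, hwzv⟩
      obtain ⟨-, h1⟩ := hs z d hcr
      refine ⟨?_, by linarith⟩
      rcases hmax z d hcr with h2 | ⟨h2, h3⟩ <;> linarith
  obtain ⟨hcb, hbz⟩ := hcl1
  obtain ⟨hcd, hdz⟩ := hcl2
  -- the crossing point
  obtain ⟨β, hβ⟩ : ∃ β, crs (P c - P z) (P b - P z) = β := ⟨_, rfl⟩
  obtain ⟨δ, hδ⟩ : ∃ δ, crs (P c - P z) (P d - P z) = δ := ⟨_, rfl⟩
  have hβ0 : β < 0 := by
    rw [← hβ, crs_swap]
    linarith
  have hδ0 : 0 < δ := by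
    rw [← hδ, ← crs_rot']
    exact hpos2
  have hβδ : β - δ < 0 := by linarith
  obtain ⟨t, ht⟩ : ∃ t, β / (β - δ) = t := ⟨_, rfl⟩
  have ht' : t * (β - δ) = β := by
    rw [← ht]
    exact div_mul_cancel₀ _ hβδ.ne
  have ht0 : 0 < t := by
    rw [← ht]
    exact div_pos_of_neg_of_neg hβ0 hβδ
  have ht1 : t < 1 := by
    rw [← ht, div_lt_one_of_neg hβδ]
    linarith
  set O : ℂ := (1 - t : ℝ) * P b + (t : ℝ) * P d with hO
  have hOz : O - P z = ((1 - t : ℝ) : ℂ) * (P b - P z) + (t : ℂ) * (P d - P z) := by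
    rw [hO]; push_cast; ring
  have hO0 : crs (P c - P z) (O - P z) = 0 := by
    rw [hOz, crs_add, crs_mul, crs_mul, hβ, hδ]
    linarith
  have hczne : P c - P z ≠ 0 := by
    intro h
    rw [h, zero_crs] at hβ
    linarith
  obtain ⟨s, hs'⟩ : ∃ s : ℝ, O - P z = (s : ℂ) * (P c - P z) := ⟨_, par hczne hO0⟩
  -- heights
  have hhz : crs (P w - P v) (O - P z) = s * (hh P v w c - hh P v w z) := by
    rw [hs', crs_mul, hh_sub]
  have hhz2 : crs (P w - P v) (O - P z) =
      (1 - t) * (hh P v w b - hh P v w z) + t * (hh P v w d - hh P v w z) := by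
    rw [hOz, crs_add, crs_mul, crs_mul, hh_sub, hh_sub]
  have hkey : s * (hh P v w z - hh P v w c) =
      (1 - t) * (hh P v w z - hh P v w b) + t * (hh P v w z - hh P v w d) := by
    linarith
  have hzc' : 0 < hh P v w z - hh P v w c := by linarith
  have hs0 : 0 < s := by
    have h1 : 0 < (1 - t) * (hh P v w z - hh P v w b) := mul_pos (by linarith) (by linarith)
    have h2 : 0 ≤ t * (hh P v w z - hh P v w d) := mul_nonneg ht0.le (by linarith)
    by_contra hcon
    push Not at hcon
    nlinarith [mul_nonneg (neg_nonneg.2 hcon) hzc'.le]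
  have hs1 : s < 1 := by
    have h1 : 0 < (1 - t) * (hh P v w b - hh P v w c) := mul_pos (by linarith) (by linarith)
    have h2 : 0 ≤ t * (hh P v w d - hh P v w c) := mul_nonneg ht0.le (by linarith)
    have h3 : (1 - s) * (hh P v w z - hh P v w c) =
        (1 - t) * (hh P v w b - hh P v w c) + t * (hh P v w d - hh P v w c) := by
      linarith
    by_contra hcon
    push Not at hcon
    nlinarith [mul_nonneg (sub_nonneg.2 hcon) hzc'.le]
  -- identities
  have hlin : ((1 - t : ℝ) : ℂ) * (P b - P z) + (t : ℂ) * (P d - P z) = (s : ℂ) * (P c - P z) := by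
    rw [← hOz, hs']
  have i1 : s * crs (P b - P z) (P c - P z) = t * crs (P b - P z) (P d - P z) := by
    have := congrArg (crs (P b - P z)) hlin
    rw [crs_add, crs_mul, crs_mul, crs_mul, crs_self, mul_zero, zero_add] at this
    exact this.symm
  have i2 : s * crs (P c - P z) (P d - P z) = (1 - t) * crs (P b - P z) (P d - P z) := by
    have := congrArg (fun u => crs u (P d - P z)) hlin
    rw [add_crs, mul_crs, mul_crs, mul_crs, crs_self, mul_zero, add_zero] at this
    exact this.symm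
  have hsum : 0 < crs (P b - P z) (P c - P z) + crs (P c - P z) (P d - P z) := by
    rw [hδ]; linarith
  have i3 : crs (P b - P z) (P d - P z) =
      s * (crs (P b - P z) (P c - P z) + crs (P c - P z) (P d - P z)) := by
    linarith
  have i4 : crs (P c - P b) (P d - P b) =
      (1 - s) * (crs (P b - P z) (P c - P z) + crs (P c - P z) (P d - P z)) := by
    have e : crs (P c - P b) (P d - P b) = crs (P b - P z) (P c - P z) +
        crs (P c - P z) (P d - P z) - crs (P b - P z) (P d - P z) := by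
      unfold crs
      simp only [Complex.sub_re, Complex.sub_im]
      ring
    rw [e, i3]
    ring
  refine ⟨b, hbV, d, hdV, hzbc, hzcd, hAzb, hAbc, hAcd, hAdz, hcb, hbz, hcd, hdz,
    ⟨s, ⟨hs0.le, hs1.le⟩, t, ⟨ht0.le, ht1.le⟩, ?_⟩, ?_, ?_⟩
  · have h1 : O = P z + (s : ℂ) * (P c - P z) := by
      rw [← hs']; ring
    rw [← hO, h1]
    push_cast
    ring
  · rw [i3]
    exact mul_pos hs0 hsum
  · rw [i4]
    exact mul_pos (by linarith) hsum

end Pool.Agent.Helper49.GP
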