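import Pool.Agent.Helper49.GP.StG

/-!
# Gilbert-Pollak, GEO: two common neighbours of an edge lie on different sides
-/

namespace Pool.Agent.Helper49.GP

open Pool.Agent.Helper18.GP Relation Classical

variable {N : ℕ}

/-- `p` before `q` between `a` and `b`: the pairs `a q` and `p b` interleave -/
private theorem crs_NBR {a b p q : Fin N} (h1 : cyc a p < cyc a q) (h2 : cyc a q < cyc a b)
    (h0 : 0 < cyc a p) : Crs a q p b := Or.inl ⟨⟨h0, h1⟩, ⟨by omega, h2⟩⟩

private theorem aux_NBR {V : Finset (Fin N)} {G : SimpleGraph (Fin N)} (h : IsTri V G)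
    {a b p q : Fin N} (ha : a ∈ V) (hb : b ∈ V) (hp : p ∈ V) (hq : q ∈ V)
    (h1 : G.Adj a p) (h2 : G.Adj p b) (h3 : G.Adj a q) (h4 : G.Adj q b) (hpq : p ≠ q)
    (hc1 : Ccw a p b) (hc2 : Ccw a q b) : False := by
  rcases Nat.lt_trichotomy (cyc a p) (cyc a q) with hl | hl | hl
  · exact h.nc a ha q hq p hp b hb h3 h2 (crs_NBR hl hc2.2 hc1.1)
  · exact hpq (cyc_inj hl)
  · exact h.nc a ha p hp q hq b hb h1 h4 (crs_NBR hl hc1.2 hc2.1)

theorem m_Nbr : stNbr := by
  intro N V G h a ha b hb p hp q hq hab hap hpb haq hqb hpq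
  have n1 := hab.ne
  have n2 := hap.ne
  have n3 := hpb.ne
  have n4 := haq.ne
  have n5 := hqb.ne
  rcases Ccw_or n2 n3 n1 with c1 | c1
  · rcases Ccw_or n4 n5 n1 with c2 | c2
    · exact (aux_NBR h ha hb hp hq hap hpb haq hqb hpq c1 c2).elim
    · left
      exact ⟨c1, Ccw.rot c2⟩
  · rcases Ccw_or n4 n5 n1 with c2 | c2
    · right
      exact ⟨Ccw.rot c1, c2⟩
    · exact (aux_NBR h hb ha hp hq hpb.symm hap.symm hqb.symm haq.symm hpq
        (Ccw.rot c1) (Ccw.rot c2)).elim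

end Pool.Agent.Helper49.GP
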