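import Pool.Agent.Helper49.GP.StG

/-!
# Gilbert-Pollak, GEO: adjacent vertices have different positions
-/

namespace Pool.Agent.Helper49.GP

open Pool.Agent.Helper18.GP Relation Classical

variable {N : ℕ}

/-- a vertex on the side `Ccw a v b` of the edge: the positions differ -/
private theorem aux_NE (hA : stApex) {V : Finset (Fin N)} {G : SimpleGraph (Fin N)}
    {P : Fin N → ℂ} (h : IsTri V G) (hs : St V G P) {a b v : Fin N} (ha : a ∈ V) (hb : b ∈ V)
    (hv : v ∈ V) (hab : G.Adj a b) (hc : Ccw a v b) : P a ≠ P b := by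
  obtain ⟨c, ⟨hcV, hc1, hc2, hc3⟩, _⟩ := hA N V G h a ha b hb hab ⟨v, hv, hc⟩
  intro he
  have h1 := hs a ha c hcV b hb hc1 hc2 hc3 hab
  rw [he, sub_self, crs_zero] at h1
  exact lt_irrefl _ h1

theorem m_Ne (hA : stApex) : stNe := by
  intro N V G P h hs h3 a ha b hb hab
  have hne := hab.ne
  obtain ⟨v, hv, hva, hvb⟩ : ∃ v ∈ V, v ≠ a ∧ v ≠ b := by
    by_contra hcon
    push Not at hcon
    have hsub : V ⊆ {a, b} := by
      intro v hv
      rw [Finset.mem_insert, Finset.mem_singleton]
      by_cases e : v = a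
      · exact Or.inl e
      · exact Or.inr (hcon v hv e)
    have h4 := Finset.card_le_card hsub
    have h5 : ({a, b} : Finset (Fin N)).card ≤ 2 := Finset.card_le_two
    omega
  rcases Ccw_or (Ne.symm hva) hvb hne with c | c
  · exact aux_NE hA h hs ha hb hv hab c
  · exact (aux_NE hA h hs hb ha hv hab.symm (Ccw.rot c)).symm

end Pool.Agent.Helper49.GP
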