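import Pool.Agent.Helper49.GP.StG

/-!
# GP, GEO, module SGN (helper33): ends of an edge crossing a clear chord
-/

namespace Pool.Agent.Helper49.GP

open Pool.Agent.Helper18.GP Relation Classical

private theorem alg_SGN {X Y V W R S : ℂ} {t κ μ : ℝ} (ht0 : 0 < t) (ht1 : t < 1) (hκ : 0 ≤ κ)
    (hS : S = (1 - t : ℝ) * X + (t : ℝ) * Y) (h1 : S - R = (κ : ℂ) * (W - V))
    (h2 : S - V = (μ : ℂ) * (W - V)) (hR : crs (Y - X) (R - X) < 0) :
    0 < crs (W - V) (X - V) ∧ crs (W - V) (Y - V) < 0 := by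
  have e1 : R - X = (t : ℂ) * (Y - X) - (κ : ℂ) * (W - V) := by
    have : R = S - (κ : ℂ) * (W - V) := by rw [← h1]; ring
    rw [this, hS]; push_cast; ring
  rw [e1, crs_sub, crs_mul, crs_mul, crs_self, mul_zero, zero_sub] at hR
  have hpos : 0 < crs (Y - X) (W - V) := by
    by_contra hcon
    nlinarith [mul_nonneg hκ (neg_nonneg.2 (not_lt.1 hcon))]
  have e2 : (1 - t) * crs (W - V) (X - V) + t * crs (W - V) (Y - V) = 0 := by
    have h3 : S - V = ((1 - t : ℝ) : ℂ) * (X - V) + (t : ℂ) * (Y - V) := by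
      rw [hS]; push_cast; ring
    have h4 : crs (W - V) (S - V) = 0 := by rw [h2, crs_mul, crs_self, mul_zero]
    rw [h3, crs_add, crs_mul, crs_mul] at h4
    exact h4
  have e3 : crs (W - V) (X - V) - crs (W - V) (Y - V) = crs (Y - X) (W - V) := by
    rw [← crs_sub, show X - V - (Y - V) = -(Y - X) by ring, crs_neg, crs_swap]
    ring
  set c := crs (Y - X) (W - V)
  set hx := crs (W - V) (X - V)
  set hy := crs (W - V) (Y - V)
  have e4 : hx = t * c := by rw [← e3]; linarith
  have e5 : hy = -((1 - t) * c) := by rw [← e3]; linarith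
  constructor
  · rw [e4]; exact mul_pos ht0 hpos
  · rw [e5]; have := mul_pos (sub_pos.2 ht1) hpos; linarith

theorem m_Sgn (hM : stMet) (hG : stGlue) (hS : stStraight) (hE : stEnter) : stSgn := by
  intro N V G P hT hSt v hv w hw hC x y hCr
  obtain ⟨hx, hy, hxy, hc1, hc2⟩ := hCr
  have M := hM N V G P hT
  have Gl := hG N V G P hT x hx y hy hxy
  have hxv : x ≠ v := by (simp only [Crs, Ccw_val, ne_eq, Fin.ext_iff] at *; omega)
  have hxw : x ≠ w := by (simp only [Crs, Ccw_val, ne_eq, Fin.ext_iff] at *; omega)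
  have hyv : y ≠ v := by (simp only [Crs, Ccw_val, ne_eq, Fin.ext_iff] at *; omega)
  have hyw : y ≠ w := by (simp only [Crs, Ccw_val, ne_eq, Fin.ext_iff] at *; omega)
  have a1 : v ∈ Arc V x y := mem_Arc_ccw.2 ⟨hv, Or.inr (Or.inr (by (simp only [Crs, Ccw_val, ne_eq, Fin.ext_iff] at *; omega)))⟩
  have a2 : w ∈ Arc V y x := mem_Arc_ccw.2 ⟨hw, Or.inr (Or.inr (by (simp only [Crs, Ccw_val, ne_eq, Fin.ext_iff] at *; omega)))⟩
  have pv : dl v ∈ Pts V G := dl_mem G hv
  have pw : dl w ∈ Pts V G := dl_mem G hw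
  have px : dl x ∈ Pts V G := dl_mem G hx
  have py : dl y ∈ Pts V G := dl_mem G hy
  obtain ⟨t, ht, hcr⟩ := Gl.cross (dl v) (dl_mem G a1) (dl w) (dl_mem G a2)
  have hcx := hC x hx hxv hxw
  have hcy := hC y hy hyv hyw
  have ht0 : 0 < t := by
    rcases ht.1.lt_or_eq with h | h
    · exact h
    · exfalso
      rw [← h, seg_zero] at hcr
      unfold dV at hcx
      linarith
  have ht1 : t < 1 := by
    rcases ht.2.lt_or_eq with h | h
    · exact h
    · exfalso
      rw [h, seg_one] at hcr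
      unfold dV at hcy
      linarith
  have ps : seg x y t ∈ Pts V G := seg_mem hx hy hxy ht
  rcases hE N V G P hT hSt x hx y hy hxy v hv (by (simp only [Crs, Ccw_val, ne_eq, Fin.ext_iff] at *; omega)) t ht0 ht1 with h | h | h
  · exfalso
    have h2 := M.tri _ px _ ps _ pw
    unfold dV at hcx h
    linarith
  · exfalso
    have h2 := M.tri _ py _ ps _ pw
    unfold dV at hcy h
    linarith
  · obtain ⟨r, pr, s1, s2, s3, hr, hd⟩ := h
    have hst : dK V G P (dl v) (dl w) = ‖dev P (dl v) - dev P (dl w)‖ := by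
      refine hS N V G P hT hSt (dl v) pv (dl w) pw ?_
      intro u hu h1 h2
      exact hC u hu (fun h => h1 (by rw [h])) (fun h => h2 (by rw [h]))
    rw [dev_dl, dev_dl] at hst
    have l1 := M.low _ pv _ pr
    have l2 := M.low _ ps _ pw
    rw [dev_dl] at l1 l2
    obtain ⟨κ, μ, hκ, e1, e2⟩ := line3 (v := P v) (r := dev P r) (s := dev P (seg x y t))
      (w := P w) (by linarith)
    exact alg_SGN ht0 ht1 hκ (dev_seg P x y t) e1 e2 hr

end Pool.Agent.Helper49.GP
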