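import Pool.Agent.Helper49.GP.StG

/-!
# Gilbert-Pollak, chapter GEO, module STR: geodesics without vertices in between are straight
-/

namespace Pool.Agent.Helper49.GP

open Pool.Agent.Helper18.GP Relation Classical

variable {N : ℕ} {V : Finset (Fin N)} {G : SimpleGraph (Fin N)} {P : Fin N → ℂ}

theorem ChN.toCh {n : ℕ} {x y : Fin N → ℝ} {c : ℝ} (h : ChN V G P n x y c) : Ch V G P x y c := by
  induction h with
  | nil x hx => exact Ch.nil x hx
  | cons n x y z c hx hs h ih => exact Ch.cons x y z c hx hs ih

theorem toChN {x y : Fin N → ℝ} {c : ℝ} (h : Ch V G P x y c) : ∃ n, ChN V G P n x y c := by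
  induction h with
  | nil x hx => exact ⟨0, ChN.nil x hx⟩
  | cons x y z c hx hs h ih =>
    obtain ⟨n, hn⟩ := ih
    exact ⟨n + 1, ChN.cons n x y z c hx hs hn⟩

theorem Ch_nonneg {x y : Fin N → ℝ} {c : ℝ} (h : Ch V G P x y c) : 0 ≤ c := by
  induction h with
  | nil x hx => exact le_refl _
  | cons x y z c hx hs h ih => positivity

theorem dK_le {x y : Fin N → ℝ} {c : ℝ} (h : Ch V G P x y c) : dK V G P x y ≤ c := by
  apply csInf_le
  · exact ⟨0, fun c hc => Ch_nonneg hc⟩
  · exact h

theorem ChN.left_mem {n : ℕ} {x y : Fin N → ℝ} {c : ℝ} (h : ChN V G P n x y c) : x ∈ Pts V G := by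
  cases h with
  | nil x hx => exact hx
  | cons n x y z c hx hs h => exact hx

theorem ChN.right_mem {n : ℕ} {x y : Fin N → ℝ} {c : ℝ} (h : ChN V G P n x y c) :
    y ∈ Pts V G := by
  induction h with
  | nil x hx => exact hx
  | cons n x y z c hx hs h ih => exact ih

theorem ChN_zero {x y : Fin N → ℝ} {c : ℝ} (h : ChN V G P 0 x y c) : x = y ∧ c = 0 := by
  cases h with
  | nil x hx => exact ⟨rfl, rfl⟩

theorem ChN_succ {n : ℕ} {x y : Fin N → ℝ} {c : ℝ} (h : ChN V G P (n + 1) x y c) :
    ∃ z c', x ∈ Pts V G ∧ Sh G x z ∧ ChN V G P n z y c' ∧ c = ‖dev P x - dev P z‖ + c' := by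
  cases h with
  | cons n x z y c' hx hs h => exact ⟨z, c', hx, hs, h, rfl⟩

/-- two straight pieces which overlap -/
theorem glue_straight {x z z' y : ℂ} (h1 : ‖x - z‖ + ‖z - z'‖ ≤ ‖x - z'‖)
    (h2 : ‖z - z'‖ + ‖z' - y‖ ≤ ‖z - y‖) (h3 : z ≠ z') : ‖x - z‖ + ‖z - y‖ = ‖x - y‖ := by
  have e1 : SameRay ℝ (x - z) (z - z') := by
    rw [sameRay_iff_norm_add]
    apply le_antisymm (norm_add_le _ _)
    rw [sub_add_sub_cancel]; exact h1
  have e2 : SameRay ℝ (z - z') (z' - y) := by
    rw [sameRay_iff_norm_add]
    apply le_antisymm (norm_add_le _ _)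
    rw [sub_add_sub_cancel]; exact h2
  have e3 : SameRay ℝ (z - z') (z - y) := by
    have := (SameRay.refl (z - z')).add_right e2
    rwa [sub_add_sub_cancel] at this
  have e4 : SameRay ℝ (x - z) (z - y) := e1.trans e3 (fun h => absurd (sub_eq_zero.1 h) h3)
  rw [sameRay_iff_norm_add, sub_add_sub_cancel] at e4
  exact e4.symm

theorem straight_aux (hAL : stAL) (hF : stFace) (ht : IsTri V G) (hst : St V G P)
    (M : MetP V G P) : ∀ (n : ℕ) (x y : Fin N → ℝ), ChN V G P n x y (dK V G P x y) →
    (∀ m < n, ¬ ChN V G P m x y (dK V G P x y)) →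
    (∀ u ∈ V, dl u ≠ x → dl u ≠ y →
      dK V G P x y < dK V G P x (dl u) + dK V G P (dl u) y) →
    dK V G P x y = ‖dev P x - dev P y‖ := by
  intro n
  induction n with
  | zero =>
    intro x y h _ _
    obtain ⟨rfl, h0⟩ := ChN_zero h
    rw [h0, sub_self, norm_zero]
  | succ n ih =>
    intro x y h hmin hno
    obtain ⟨z, c, hx, hxz, hzy, hc⟩ := ChN_succ h
    have hz := hzy.left_mem
    have hy := hzy.right_mem
    have hDxz := M.sh x hx z hz hxz
    have hcD : c = dK V G P z y := by
      apply le_antisymm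
      · have := M.tri x hx z hz y hy
        linarith
      · exact dK_le hzy.toCh
    have hminz : ∀ m < n, ¬ ChN V G P m z y (dK V G P z y) := by
      intro m hm hcon
      apply hmin (m + 1) (by omega)
      rw [hc, hcD]
      exact ChN.cons m x z y _ hx hxz hcon
    rcases n with _ | k
    · obtain ⟨rfl, h0⟩ := ChN_zero hzy
      rw [hc, h0, add_zero]
    · obtain ⟨z', c', _, hzz', hz'y, hc'⟩ := ChN_succ hzy
      have hz' := hz'y.left_mem
      -- `z` is not a vertex
      have hnv : ∀ u ∈ V, z ≠ dl u := by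
        intro u hu hzu
        by_cases h1 : dl u = x
        · apply hmin (k + 1) (by omega)
          have hzx : z = x := hzu.trans h1
          have : dK V G P x y = c := by rw [hc, hzx, sub_self, norm_zero, zero_add]
          rw [this]
          rw [hzx] at hzy
          exact hzy
        · by_cases h2 : dl u = y
          · apply hmin 1 (by omega)
            have hzy' : z = y := hzu.trans h2
            have e1 : dK V G P x y = ‖dev P x - dev P y‖ := by
              rw [← hzy']; exact hDxz
            have e2 := ChN.cons 0 x y y 0 hx (by rw [← hzy']; exact hxz) (ChN.nil (P := P) y hy)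
            rw [add_zero] at e2
            rw [e1]; exact e2
          · have := hno u hu h1 h2
            rw [← hzu] at this
            linarith
      have hnsh : ¬ Sh G x z' := by
        intro hcon
        apply hmin (k + 1) (by omega)
        have e1 := ChN.cons k x z' y c' hx hcon hz'y
        have e2 := dK_le e1.toCh
        have e3 : ‖dev P x - dev P z'‖ ≤ ‖dev P x - dev P z‖ + ‖dev P z - dev P z'‖ := by
          have := norm_add_le (dev P x - dev P z) (dev P z - dev P z')
          rwa [sub_add_sub_cancel] at this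
        have e4 : dK V G P x y = ‖dev P x - dev P z'‖ + c' := by linarith
        rw [e4]; exact e1
      obtain ⟨a, ha, b, hb, p, hp, q, hq, t0, ht0, ht1, hzs, hab, hap, hpb, haq, hqb, hc1, hc2,
        hxp, hzq, hsx, hsz'⟩ := hF N V G ht x hx z hz z' hz' hxz hzz' hnsh hnv
      have hloc : ∀ t ∈ Set.Icc (0 : ℝ) 1, ‖dev P x - ((1 - t0 : ℝ) * P a + (t0 : ℝ) * P b)‖ +
          ‖((1 - t0 : ℝ) * P a + (t0 : ℝ) * P b) - dev P z'‖ ≤
          ‖dev P x - ((1 - t : ℝ) * P a + (t : ℝ) * P b)‖ +
          ‖((1 - t : ℝ) * P a + (t : ℝ) * P b) - dev P z'‖ := by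
        intro t htt
        rw [← dev_seg, ← dev_seg, ← hzs]
        have hw : seg a b t ∈ Pts V G := seg_mem ha hb hab htt
        have s1 : Sh G x (seg a b t) := Sh_of_tri hab hpb.symm hap hsx
          (fun v hv => (seg_ne hv).elim Or.inl (fun h => Or.inr (Or.inl h)))
        have s2 : Sh G (seg a b t) z' := Sh_of_tri hab hqb.symm haq
          (fun v hv => (seg_ne hv).elim Or.inl (fun h => Or.inr (Or.inl h))) hsz'
        have e1 := ChN.cons (k + 1) x (seg a b t) y _ hx s1
          (ChN.cons k (seg a b t) z' y c' hw s2 hz'y)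
        have e2 := dK_le e1.toCh
        linarith
      have hsx1 : crs (P b - P a) (dev P x - P a) < 0 := by
        rw [crs_dev_tri P hx.2.1 hsx, crs_flip']
        have := hst a ha p hp b hb hc1 hap hpb hab
        nlinarith
      have hsz1 : 0 < crs (P b - P a) (dev P z' - P a) := by
        rw [crs_dev_tri P hz'.2.1 hsz']
        have := hst a ha b hb q hq (Ccw.rot' hc2) hab hqb.symm haq
        exact mul_pos hzq this
      have hAL' := hAL (dev P x) (dev P z') (P a) (P b) t0 ht0 ht1 hsx1 hsz1 hloc
      rw [← dev_seg, ← hzs] at hAL'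
      have hline : crs (P b - P a) (dev P z - P a) = 0 := by
        rw [hzs, dev_seg]
        have : ((1 - t0 : ℝ) : ℂ) * P a + (t0 : ℂ) * P b - P a = (t0 : ℂ) * (P b - P a) := by
          push_cast; ring
        rw [this, crs_mul, crs_self, mul_zero]
      have hne : dev P z ≠ dev P z' := by
        intro h; rw [h] at hline; rw [hline] at hsz1; exact lt_irrefl _ hsz1
      have hne' : 0 < ‖dev P x - dev P z‖ := by
        rw [norm_pos_iff, sub_ne_zero]
        intro h; rw [h] at hsx1; rw [hline] at hsx1; exact lt_irrefl _ hsx1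
      -- no vertex between `z` and `y`
      have hnoz : ∀ u ∈ V, dl u ≠ z → dl u ≠ y →
          dK V G P z y < dK V G P z (dl u) + dK V G P (dl u) y := by
        intro u hu _ huy
        by_contra hcon
        rw [not_lt] at hcon
        have hup := dl_mem G hu
        by_cases h1 : dl u = x
        · rw [h1] at hcon
          have := M.nonneg z hz x hx
          linarith
        · have e1 := hno u hu h1 huy
          have e2 := M.tri x hx z hz (dl u) hup
          linarith
      have hih := ih z y (by rw [← hcD]; exact hzy) hminz hnoz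
      have e5 : ‖dev P z - dev P z'‖ + ‖dev P z' - dev P y‖ ≤ ‖dev P z - dev P y‖ := by
        have e6 := M.low z' hz' y hy
        have e7 := dK_le hz'y.toCh
        linarith
      have e8 := glue_straight hAL'.le e5 hne
      rw [← e8, ← hih, ← hcD, ← hc]

theorem m_Straight (hM : stMet) (hAL : stAL) (hF : stFace) : stStraight := by
  intro N V G P ht hst x hx y hy hno
  have M := hM N V G P ht
  have hex := toChN (M.att x hx y hy)
  exact straight_aux hAL hF ht hst M (Nat.find hex) x y (Nat.find_spec hex)
    (fun m hm => Nat.find_min hex hm) hno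

end Pool.Agent.Helper49.GP
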