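import Pool.Agent.Helper49.GP.StG

/-!
# Gilbert-Pollak, chapter GEO, module XING (helper40): clear chords that interleave
-/

set_option autoImplicit false

namespace Pool.Agent.Helper49.GP

open Pool.Agent.Helper18.GP Relation Classical

variable {N : ℕ}

private theorem half_XING (hM : stMet) (hE : stEnter) {V : Finset (Fin N)}
    {G : SimpleGraph (Fin N)} {P : Fin N → ℂ} (hT : IsTri V G) (hS : St V G P)
    {a b c : Fin N} (ha : a ∈ V) (hb : b ∈ V) (hab : G.Adj a b) (hc : c ∈ V) (hacb : Ccw a c b)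
    {t : ℝ} (h0 : 0 < t) (h1 : t < 1)
    (n1 : dK V G P (dl c) (seg a b t) < dV V G P c a + dK V G P (dl a) (seg a b t))
    (n2 : dK V G P (dl c) (seg a b t) < dV V G P c b + dK V G P (dl b) (seg a b t)) :
    dV V G P a c < ‖P a - dev P (seg a b t)‖ + dK V G P (dl c) (seg a b t) ∧
    dV V G P b c < ‖P b - dev P (seg a b t)‖ + dK V G P (dl c) (seg a b t) := by
  have M := hM N V G P hT
  rcases hE N V G P hT hS a ha b hb hab c hc hacb t h0 h1 with h | h | h
  · exact absurd h (ne_of_lt n1)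
  · exact absurd h (ne_of_lt n2)
  · obtain ⟨r, hr, sa, sb, _, hcr, he⟩ := h
    have pa : dl a ∈ Pts V G := dl_mem G ha
    have pb : dl b ∈ Pts V G := dl_mem G hb
    have pc : dl c ∈ Pts V G := dl_mem G hc
    have e1 : dK V G P (dl a) r = ‖P a - dev P r‖ := by
      rw [M.sh _ pa _ hr sa, dev_dl]
    have e2 : dK V G P (dl b) r = ‖P b - dev P r‖ := by
      rw [M.sh _ pb _ hr sb, dev_dl]
    have t1 : dV V G P a c ≤ dK V G P (dl a) r + dK V G P r (dl c) := M.tri _ pa _ hr _ pc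
    have t2 : dV V G P b c ≤ dK V G P (dl b) r + dK V G P r (dl c) := M.tri _ pb _ hr _ pc
    have hsy : dK V G P r (dl c) = dK V G P (dl c) r := M.symm _ hr _ pc
    have hda : dev P (seg a b t) - P a = ((t : ℝ) : ℂ) * (P b - P a) := by
      rw [dev_seg]; push_cast; ring
    have hdb : dev P (seg a b t) - P b = ((1 - t : ℝ) : ℂ) * (P a - P b) := by
      rw [dev_seg]; push_cast; ring
    have s1 : ‖P a - dev P r‖ < ‖P a - dev P (seg a b t)‖ + ‖dev P (seg a b t) - dev P r‖ := by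
      apply strict_tri
      rw [hda, mul_crs]
      exact mul_ne_zero (ne_of_gt h0) (ne_of_lt hcr)
    have s2 : ‖P b - dev P r‖ < ‖P b - dev P (seg a b t)‖ + ‖dev P (seg a b t) - dev P r‖ := by
      apply strict_tri
      rw [hdb, mul_crs, crs_flip]
      exact mul_ne_zero (by linarith) (neg_ne_zero.2 (ne_of_lt hcr))
    have hn : ‖dev P (seg a b t) - dev P r‖ = ‖dev P r - dev P (seg a b t)‖ := norm_sub_rev _ _
    constructor
    · rw [he]; linarith
    · rw [he]; linarith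

private theorem core_XING (hM : stMet) (hG : stGlue) (hP : stPos) (hE : stEnter) (hN : stNe)
    {V : Finset (Fin N)} {G : SimpleGraph (Fin N)} {P : Fin N → ℂ} (hT : IsTri V G)
    (hS : St V G P) {a b c d : Fin N} (ha : a ∈ V) (hb : b ∈ V) (hc : c ∈ V) (hd : d ∈ V)
    (hab : G.Adj a b) (h1 : Ccw a c b) (h2 : Ccw b d a) (hcl : Clear V G P c d) :
    ∃ α β γ δ : ℝ, 0 < α ∧ 0 < β ∧ 0 < γ ∧ 0 < δ ∧
      dV V G P a b = α + β ∧ dV V G P c d = γ + δ ∧ dV V G P a c < α + γ ∧
      dV V G P a d < α + δ ∧ dV V G P b c < β + γ ∧ dV V G P b d < β + δ := by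
  have M := hM N V G P hT
  have pa : dl a ∈ Pts V G := dl_mem G ha
  have pb : dl b ∈ Pts V G := dl_mem G hb
  have pc : dl c ∈ Pts V G := dl_mem G hc
  have pd : dl d ∈ Pts V G := dl_mem G hd
  have nac : a ≠ c := Ccw.ne1 h1
  have ncb : c ≠ b := Ccw.ne2 h1
  have nab : a ≠ b := Ccw.ne3 h1
  have nbd : b ≠ d := Ccw.ne1 h2
  have nda : d ≠ a := Ccw.ne2 h2
  have h3 : 3 ≤ V.card := by
    have hsub : ({a, b, c} : Finset (Fin N)) ⊆ V := by
      intro x hx
      rw [Finset.mem_insert, Finset.mem_insert, Finset.mem_singleton] at hx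
      rcases hx with rfl | rfl | rfl
      · exact ha
      · exact hb
      · exact hc
    have hcard : ({a, b, c} : Finset (Fin N)).card = 3 :=
      Finset.card_eq_three.2 ⟨a, b, c, nab, nac, ncb.symm, rfl⟩
    rw [← hcard]
    exact Finset.card_le_card hsub
  have hne : ∀ a ∈ V, ∀ b ∈ V, a ≠ b → G.Adj a b → P a ≠ P b :=
    fun x hx y hy _ hxy => hN N V G P hT hS h3 x hx y hy hxy
  have pcA : dl c ∈ Pts (Arc V a b) G :=
    dl_mem G (mem_Arc_ccw.2 ⟨hc, Or.inr (Or.inr h1)⟩)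
  have pdA : dl d ∈ Pts (Arc V b a) G :=
    dl_mem G (mem_Arc_ccw.2 ⟨hd, Or.inr (Or.inr h2)⟩)
  obtain ⟨t, ht, e⟩ := (hG N V G P hT a ha b hb hab).cross _ pcA _ pdA
  have ca : dV V G P c d < dV V G P c a + dV V G P a d := hcl a ha nac nda.symm
  have cb : dV V G P c d < dV V G P c b + dV V G P b d := hcl b hb ncb.symm nbd
  have e' : dV V G P c d = dK V G P (dl c) (seg a b t) + dK V G P (seg a b t) (dl d) := e
  have t0 : t ≠ 0 := by
    rintro rfl
    rw [seg_zero] at e'
    exact absurd e' (ne_of_lt ca)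
  have t1 : t ≠ 1 := by
    rintro rfl
    rw [seg_one] at e'
    exact absurd e' (ne_of_lt cb)
  have h0 : 0 < t := lt_of_le_of_ne ht.1 (Ne.symm t0)
  have h1' : t < 1 := lt_of_le_of_ne ht.2 t1
  have pξ : seg a b t ∈ Pts V G := seg_mem ha hb hab ht
  have hγ : 0 < dK V G P (dl c) (seg a b t) := by
    refine lt_of_le_of_ne (M.nonneg _ pc _ pξ) fun h => ?_
    exact seg_ne_dl nab h0 h1' c (hP N V G P hT hS hne _ pc _ pξ h.symm).symm
  have hδ : 0 < dK V G P (seg a b t) (dl d) := by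
    refine lt_of_le_of_ne (M.nonneg _ pξ _ pd) fun h => ?_
    exact seg_ne_dl nab h0 h1' d (hP N V G P hT hS hne _ pξ _ pd h.symm)
  have n1 : dK V G P (dl c) (seg a b t) < dV V G P c a + dK V G P (dl a) (seg a b t) := by
    have := M.tri _ pa _ pξ _ pd
    have h' : dV V G P a d ≤ dK V G P (dl a) (seg a b t) + dK V G P (seg a b t) (dl d) := this
    linarith
  have n2 : dK V G P (dl c) (seg a b t) < dV V G P c b + dK V G P (dl b) (seg a b t) := by
    have := M.tri _ pb _ pξ _ pd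
    have h' : dV V G P b d ≤ dK V G P (dl b) (seg a b t) + dK V G P (seg a b t) (dl d) := this
    linarith
  have sd : dK V G P (seg a b t) (dl d) = dK V G P (dl d) (seg a b t) := M.symm _ pξ _ pd
  have sw : seg b a (1 - t) = seg a b t := seg_swap a b t
  have n3 : dK V G P (dl d) (seg b a (1 - t)) <
      dV V G P d b + dK V G P (dl b) (seg b a (1 - t)) := by
    rw [sw]
    have h' : dV V G P c b ≤ dK V G P (dl c) (seg a b t) + dK V G P (seg a b t) (dl b) :=
      M.tri _ pc _ pξ _ pb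
    have h'' : dK V G P (seg a b t) (dl b) = dK V G P (dl b) (seg a b t) := M.symm _ pξ _ pb
    have h''' : dV V G P b d = dV V G P d b := M.symm _ pb _ pd
    linarith
  have n4 : dK V G P (dl d) (seg b a (1 - t)) <
      dV V G P d a + dK V G P (dl a) (seg b a (1 - t)) := by
    rw [sw]
    have h' : dV V G P c a ≤ dK V G P (dl c) (seg a b t) + dK V G P (seg a b t) (dl a) :=
      M.tri _ pc _ pξ _ pa
    have h'' : dK V G P (seg a b t) (dl a) = dK V G P (dl a) (seg a b t) := M.symm _ pξ _ pa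
    have h''' : dV V G P a d = dV V G P d a := M.symm _ pa _ pd
    linarith
  obtain ⟨A1, B1⟩ := half_XING hM hE hT hS ha hb hab hc h1 h0 h1' n1 n2
  obtain ⟨B2, A2⟩ := half_XING hM hE hT hS hb ha hab.symm hd h2 (t := 1 - t) (by linarith)
    (by linarith) n3 n4
  rw [sw] at A2 B2
  have hPab : 0 < ‖P b - P a‖ := norm_pos_iff.2 (sub_ne_zero.2 (hne a ha b hb nab hab).symm)
  have ea : ‖P a - dev P (seg a b t)‖ = t * ‖P b - P a‖ := by
    have : P a - dev P (seg a b t) = ((-t : ℝ) : ℂ) * (P b - P a) := by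
      rw [dev_seg]; push_cast; ring
    rw [this, norm_mul, Complex.norm_real, Real.norm_eq_abs, abs_neg, abs_of_pos h0]
  have eb : ‖P b - dev P (seg a b t)‖ = (1 - t) * ‖P b - P a‖ := by
    have : P b - dev P (seg a b t) = ((1 - t : ℝ) : ℂ) * (P b - P a) := by
      rw [dev_seg]; push_cast; ring
    rw [this, norm_mul, Complex.norm_real, Real.norm_eq_abs, abs_of_pos (by linarith)]
  have eab : dV V G P a b = ‖P b - P a‖ := by
    have := M.sh _ pa _ pb (Sh_dl hab)
    rw [dev_dl, dev_dl, norm_sub_rev] at this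
    exact this
  refine ⟨‖P a - dev P (seg a b t)‖, ‖P b - dev P (seg a b t)‖, dK V G P (dl c) (seg a b t),
    dK V G P (seg a b t) (dl d), ?_, ?_, hγ, hδ, ?_, e', A1, ?_, B1, ?_⟩
  · rw [ea]; exact mul_pos h0 hPab
  · rw [eb]; exact mul_pos (by linarith) hPab
  · rw [ea, eb, eab]; ring
  · rw [sd]; exact A2
  · rw [sd]; exact B2

/-- **XING**: clear chords that interleave meet transversally -/
theorem m_Xing (hM : stMet) (hG : stGlue) (hP : stPos) (hS : stStraight) (h1 : stCI1)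
    (hE : stEnter) (hN : stNe) : stXing := by
  intro N V G P hT hSt a ha b hb c hc d hd hcr hab hcd
  have nab : a ≠ b := by
    rcases hcr with h | h
    · exact Ccw.ne3 h.1
    · exact Ccw.ne3 h.1
  obtain ⟨G', hT', hSt', hIso, hadj, -⟩ := h1 N V G P hT hSt a ha b hb nab hab
  have hd' : ∀ x ∈ V, ∀ y ∈ V, dV V G' P x y = dV V G P x y := hIso.1
  have M := hM N V G P hT
  have hsy : ∀ x ∈ V, ∀ y ∈ V, dV V G P x y = dV V G P y x :=
    fun x hx y hy => M.symm _ (dl_mem G hx) _ (dl_mem G hy)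
  have hcl : Clear V G' P c d := by
    intro u hu h1 h2
    rw [hd' c hc d hd, hd' c hc u hu, hd' u hu d hd]
    exact hcd u hu h1 h2
  have hcl' : Clear V G' P d c := by
    intro u hu h1 h2
    rw [hd' d hd c hc, hd' d hd u hu, hd' u hu c hc, hsy d hd c hc, hsy d hd u hu,
      hsy u hu c hc, add_comm]
    exact hcd u hu h2 h1
  rcases hcr with h | h
  · have h2 : Ccw b d a := Ccw.rot h.2
    obtain ⟨α, β, γ, δ, p1, p2, p3, p4, q1, q2, q3, q4, q5, q6⟩ :=
      core_XING hM hG hP hE hN hT' hSt' ha hb hc hd hadj h.1 h2 hcl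
    rw [hd' a ha b hb] at q1
    rw [hd' c hc d hd] at q2
    rw [hd' a ha c hc] at q3
    rw [hd' a ha d hd] at q4
    rw [hd' b hb c hc] at q5
    rw [hd' b hb d hd] at q6
    exact ⟨α, β, γ, δ, p1, p2, p3, p4, q1, q2, q3, q4, q5, q6⟩
  · have h2 : Ccw b c a := Ccw.rot h.2
    obtain ⟨α, β, γ, δ, p1, p2, p3, p4, q1, q2, q3, q4, q5, q6⟩ :=
      core_XING hM hG hP hE hN hT' hSt' ha hb hd hc hadj h.1 h2 hcl'
    rw [hd' a ha b hb] at q1
    rw [hd' d hd c hc] at q2
    rw [hd' a ha d hd] at q3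
    rw [hd' a ha c hc] at q4
    rw [hd' b hb d hd] at q5
    rw [hd' b hb c hc] at q6
    refine ⟨α, β, δ, γ, p1, p2, p4, p3, q1, ?_, q4, q3, q6, q5⟩
    rw [hsy c hc d hd, q2]; ring

end Pool.Agent.Helper49.GP
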