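import Pool.Agent.Helper49.GP.M_AL
import Pool.Agent.Helper49.GP.M_NBR
import Pool.Agent.Helper49.GP.M_FACE
import Pool.Agent.Helper49.GP.M_NE
import Pool.Agent.Helper49.GP.M_ENTER
import Pool.Agent.Helper49.GP.M_SGN
import Pool.Agent.Helper49.GP.M_FST
import Pool.Agent.Helper49.GP.M_MAX
import Pool.Agent.Helper49.GP.M_CI1
import Pool.Agent.Helper49.GP.M_CLEAR
import Pool.Agent.Helper49.GP.M_CI
import Pool.Agent.Helper49.GP.M_XING
import Pool.Agent.Helper49.GP.M_STR

/-!
# Gilbert-Pollak, chapter GEO: the four statements of the api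
-/

namespace Pool.Agent.Helper49.GP

open Pool.Agent.Helper18.GP Relation Classical

theorem geo_Straight (hM : stMet) : stStraight := m_Straight hM m_AL (m_Face m_Nbr)

theorem geo_ClearEdge (hM : stMet) (hG : stGlue) (hP : stPos) (hA : stApex) : stClearEdge :=
  m_ClearEdge hM hG hP hA (m_Ne hA)

theorem geo_CI1 (hM : stMet) (hG : stGlue) (hF : stFlip) (hA : stApex) : stCI1 :=
  m_CI1 hF (m_FlipSt m_Nbr) (m_Sgn hM hG (geo_Straight hM) (m_Enter hM hG hA)) (m_Max hA)

theorem geo_CI (hM : stMet) (hG : stGlue) (hF : stFlip) (hA : stApex) : stCI :=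
  m_CI (geo_CI1 hM hG hF hA)

theorem geo_Xing (hM : stMet) (hG : stGlue) (hP : stPos) (hF : stFlip) (hA : stApex) : stXing :=
  m_Xing hM hG hP (geo_Straight hM) (geo_CI1 hM hG hF hA) (m_Enter hM hG hA) (m_Ne hA)

end Pool.Agent.Helper49.GP
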