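import Pool.Agent.Helper18.GP.Cyc

/-!
# Gilbert-Pollak, chapter GEO: elementary facts (helper49)
cross products, straight triples, cyclic order by values, points of edges and faces
-/

namespace Pool.Agent.Helper49.GP

open Pool.Agent.Helper18.GP Relation Classical

variable {N : ℕ}

/-! ### cross products -/

theorem crs_self (z : ℂ) : crs z z = 0 := by unfold crs; ring

theorem crs_zero (z : ℂ) : crs z 0 = 0 := by unfold crs; simp

theorem zero_crs (z : ℂ) : crs 0 z = 0 := by unfold crs; simp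

theorem crs_swap (z w : ℂ) : crs z w = -crs w z := by unfold crs; ring

theorem crs_add (z w u : ℂ) : crs z (w + u) = crs z w + crs z u := by
  unfold crs; simp only [Complex.add_re, Complex.add_im]; ring

theorem crs_sub (z w u : ℂ) : crs z (w - u) = crs z w - crs z u := by
  unfold crs; simp only [Complex.sub_re, Complex.sub_im]; ring

theorem add_crs (z w u : ℂ) : crs (z + w) u = crs z u + crs w u := by
  unfold crs; simp only [Complex.add_re, Complex.add_im]; ring

theorem sub_crs (z w u : ℂ) : crs (z - w) u = crs z u - crs w u := by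
  unfold crs; simp only [Complex.sub_re, Complex.sub_im]; ring

theorem crs_mul (r : ℝ) (z w : ℂ) : crs z ((r : ℂ) * w) = r * crs z w := by
  unfold crs
  simp only [Complex.mul_re, Complex.mul_im, Complex.ofReal_re, Complex.ofReal_im]; ring

theorem mul_crs (r : ℝ) (z w : ℂ) : crs ((r : ℂ) * z) w = r * crs z w := by
  unfold crs
  simp only [Complex.mul_re, Complex.mul_im, Complex.ofReal_re, Complex.ofReal_im]; ring

theorem crs_neg (z w : ℂ) : crs z (-w) = -crs z w := by
  unfold crs; simp only [Complex.neg_re, Complex.neg_im]; ring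

/-- the orientation of a triangle is invariant under rotation of its vertices -/
theorem crs_rot (a b c : ℂ) : crs (b - a) (c - a) = crs (c - b) (a - b) := by
  unfold crs; simp only [Complex.sub_re, Complex.sub_im]; ring

theorem crs_rot' (a b c : ℂ) : crs (b - a) (c - a) = crs (a - c) (b - c) := by
  unfold crs; simp only [Complex.sub_re, Complex.sub_im]; ring

/-- ... and changes sign under a transposition -/
theorem crs_flip (a b c : ℂ) : crs (b - a) (c - a) = -crs (a - b) (c - b) := by
  unfold crs; simp only [Complex.sub_re, Complex.sub_im]; ring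

theorem crs_flip' (a b c : ℂ) : crs (b - a) (c - a) = -crs (c - a) (b - a) := by
  unfold crs; simp only [Complex.sub_re, Complex.sub_im]; ring

/-! ### straight triples -/

/-- equality in the triangle inequality -/
theorem between {x s y : ℂ} (h : ‖x - s‖ + ‖s - y‖ ≤ ‖x - y‖) :
    ∃ κ ∈ Set.Icc (0 : ℝ) 1, s = x + (κ : ℂ) * (y - x) := by
  have h2 : dist x s + dist s y = dist x y := by
    apply le_antisymm
    · rw [dist_eq_norm, dist_eq_norm, dist_eq_norm]; exact h
    · exact dist_triangle x s y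
  rw [dist_add_dist_eq_iff] at h2
  obtain ⟨κ, hκ, rfl⟩ := h2
  refine ⟨κ, hκ, ?_⟩
  rw [AffineMap.lineMap_apply]
  simp only [vsub_eq_sub, vadd_eq_add, Complex.real_smul]
  ring

/-- strict triangle inequality for triangles which are not flat -/
theorem strict_tri {p s r : ℂ} (h : crs (s - p) (r - p) ≠ 0) : ‖p - r‖ < ‖p - s‖ + ‖s - r‖ := by
  by_contra hcon
  obtain ⟨κ, _, e⟩ := between (not_lt.1 hcon)
  apply h
  have : s - p = (κ : ℂ) * (r - p) := by rw [e]; ring
  rw [this, mul_crs, crs_self, mul_zero]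

/-- a straight path of three pieces: `v, r, s, w` -/
theorem line3 {v r s w : ℂ} (h : ‖v - r‖ + ‖r - s‖ + ‖s - w‖ ≤ ‖v - w‖) :
    ∃ κ μ : ℝ, 0 ≤ κ ∧ s - r = (κ : ℂ) * (w - v) ∧ s - v = (μ : ℂ) * (w - v) := by
  have h1 : ‖v - s‖ ≤ ‖v - r‖ + ‖r - s‖ := by
    have := norm_add_le (v - r) (r - s)
    rwa [sub_add_sub_cancel] at this
  have h2 : ‖v - w‖ ≤ ‖v - s‖ + ‖s - w‖ := by
    have := norm_add_le (v - s) (s - w)
    rwa [sub_add_sub_cancel] at this
  obtain ⟨μ, hμ, e1⟩ := between (x := v) (s := s) (y := w) (by linarith)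
  obtain ⟨ν, hν, e2⟩ := between (x := v) (s := r) (y := s) (by linarith)
  refine ⟨(1 - ν) * μ, μ, mul_nonneg (by linarith [hν.2]) hμ.1, ?_, ?_⟩
  · have : s - r = ((1 - ν : ℝ) : ℂ) * (s - v) := by
      rw [e2]; push_cast; ring
    rw [this, e1]; push_cast; ring
  · rw [e1]; ring

/-! ### cyclic order by values -/

theorem Ccw_val (a b c : Fin N) : Ccw a b c ↔ (a.val < b.val ∧ b.val < c.val) ∨
    (b.val < c.val ∧ c.val < a.val) ∨ (c.val < a.val ∧ a.val < b.val) := by
  have ha := a.isLt; have hb := b.isLt; have hc := c.isLt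
  unfold Ccw cyc
  split_ifs <;> omega

theorem cyc_le_iff (a v c : Fin N) : cyc a v ≤ cyc a c ↔ v = a ∨ v = c ∨ Ccw a v c := by
  have ha := a.isLt; have hv := v.isLt; have hc := c.isLt
  rw [Fin.ext_iff, Fin.ext_iff, Ccw_val]
  unfold cyc
  split_ifs <;> omega

theorem mem_Arc_ccw {V : Finset (Fin N)} {a c v : Fin N} :
    v ∈ Arc V a c ↔ v ∈ V ∧ (v = a ∨ v = c ∨ Ccw a v c) := by
  rw [mem_Arc, cyc_le_iff]

/-! Statements on `Ccw`, `Crs`, equality of labels are decided by
`simp only [Crs, Ccw_val, ne_eq, Fin.ext_iff] at *; omega`. -/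

theorem Ccw.rot {a b c : Fin N} (h : Ccw a b c) : Ccw b c a := by
  simp only [Ccw_val, ne_eq, Fin.ext_iff] at *; omega
theorem Ccw.rot' {a b c : Fin N} (h : Ccw a b c) : Ccw c a b := by
  simp only [Ccw_val, ne_eq, Fin.ext_iff] at *; omega
theorem Ccw.ne1 {a b c : Fin N} (h : Ccw a b c) : a ≠ b := by
  simp only [Ccw_val, ne_eq, Fin.ext_iff] at *; omega
theorem Ccw.ne2 {a b c : Fin N} (h : Ccw a b c) : b ≠ c := by
  simp only [Ccw_val, ne_eq, Fin.ext_iff] at *; omega
theorem Ccw.ne3 {a b c : Fin N} (h : Ccw a b c) : a ≠ c := by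
  simp only [Ccw_val, ne_eq, Fin.ext_iff] at *; omega

theorem Ccw_or {a b c : Fin N} (h1 : a ≠ b) (h2 : b ≠ c) (h3 : a ≠ c) :
    Ccw a b c ∨ Ccw a c b := by
  simp only [Ccw_val, ne_eq, Fin.ext_iff] at *; omega

/-! ### points -/

theorem dl_apply (a v : Fin N) : dl a v = if v = a then (1 : ℝ) else 0 := by
  unfold dl; rw [Pi.single_apply]

theorem dl_ne {a v : Fin N} (h : dl a v ≠ (0 : ℝ)) : v = a := by
  rw [dl_apply] at h
  by_contra hc
  rw [if_neg hc] at h
  exact h rfl

theorem seg_apply (a b : Fin N) (t : ℝ) (v : Fin N) :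
    seg a b t v = (1 - t) * (if v = a then 1 else 0) + t * (if v = b then 1 else 0) := by
  unfold seg; rw [dl_apply, dl_apply]

theorem seg_ne {a b : Fin N} {t : ℝ} {v : Fin N} (h : seg a b t v ≠ 0) : v = a ∨ v = b := by
  rw [seg_apply] at h
  by_contra hc
  rw [not_or] at hc
  rw [if_neg hc.1, if_neg hc.2] at h
  exact h (by ring)

theorem seg_zero (a b : Fin N) : seg a b 0 = dl a := by
  funext v; unfold seg; ring

theorem seg_one (a b : Fin N) : seg a b 1 = dl b := by
  funext v; unfold seg; ring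

theorem seg_swap (a b : Fin N) (t : ℝ) : seg b a (1 - t) = seg a b t := by
  funext v; unfold seg; ring

theorem seg_mem {V : Finset (Fin N)} {G : SimpleGraph (Fin N)} {a b : Fin N} (ha : a ∈ V)
    (hb : b ∈ V) (hab : G.Adj a b) {t : ℝ} (ht : t ∈ Set.Icc (0 : ℝ) 1) :
    seg a b t ∈ Pts V G := by
  refine ⟨?_, ?_, ?_, ?_⟩
  · intro v
    rw [seg_apply]
    have h1 := ht.1; have h2 := ht.2
    split_ifs <;> linarith
  · unfold seg
    rw [Finset.sum_add_distrib, ← Finset.mul_sum, ← Finset.mul_sum,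
      (dl_mem (V := {a}) G (Finset.mem_singleton_self a)).2.1,
      (dl_mem (V := {b}) G (Finset.mem_singleton_self b)).2.1]
    ring
  · intro v hv
    rcases seg_ne hv with rfl | rfl
    · exact ha
    · exact hb
  · intro u v hu hv huv
    rcases seg_ne hu with rfl | rfl <;> rcases seg_ne hv with rfl | rfl
    · exact absurd rfl huv
    · exact hab
    · exact hab.symm
    · exact absurd rfl huv

theorem dev_seg (P : Fin N → ℂ) (a b : Fin N) (t : ℝ) :
    dev P (seg a b t) = (1 - t : ℝ) * P a + (t : ℝ) * P b := by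
  have h : dev P (seg a b t) = (1 - t : ℝ) * dev P (dl a) + (t : ℝ) * dev P (dl b) := by
    unfold dev seg
    rw [Finset.mul_sum, Finset.mul_sum, ← Finset.sum_add_distrib]
    refine Finset.sum_congr rfl fun v _ => ?_
    push_cast; ring
  rw [h, dev_dl, dev_dl]

theorem seg_ne_dl {a b : Fin N} (hab : a ≠ b) {t : ℝ} (h0 : 0 < t) (h1 : t < 1) (u : Fin N) :
    seg a b t ≠ dl u := by
  intro h
  have ha := congrFun h a
  have hb := congrFun h b
  rw [seg_apply, dl_apply, if_pos rfl, if_neg hab] at ha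
  rw [seg_apply, dl_apply, if_neg (Ne.symm hab), if_pos rfl] at hb
  split_ifs at ha hb with h2 h3 <;> linarith

/-! ### common faces -/

theorem Sh.symm {G : SimpleGraph (Fin N)} {x y : Fin N → ℝ} (h : Sh G x y) : Sh G y x :=
  fun a b ha hb hab => h a b ha.symm hb.symm hab

theorem Sh_self {V : Finset (Fin N)} {G : SimpleGraph (Fin N)} {x : Fin N → ℝ}
    (h : x ∈ Pts V G) : Sh G x x := by
  intro a b ha hb hab
  exact h.2.2.2 a b (ha.elim id id) (hb.elim id id) hab

/-- two points of a triangle -/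
theorem Sh_of_tri {G : SimpleGraph (Fin N)} {a b c : Fin N} (h1 : G.Adj a b) (h2 : G.Adj b c)
    (h3 : G.Adj a c) {x y : Fin N → ℝ} (hx : ∀ v, x v ≠ 0 → v = a ∨ v = b ∨ v = c)
    (hy : ∀ v, y v ≠ 0 → v = a ∨ v = b ∨ v = c) : Sh G x y := by
  intro u v hu hv huv
  have hu' : u = a ∨ u = b ∨ u = c := hu.elim (hx u) (hy u)
  have hv' : v = a ∨ v = b ∨ v = c := hv.elim (hx v) (hy v)
  have h1' := h1.symm
  have h2' := h2.symm
  have h3' := h3.symm
  rcases hu' with rfl | rfl | rfl <;> rcases hv' with rfl | rfl | rfl <;>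
    first
    | exact absurd rfl huv
    | assumption

theorem Sh_dl {G : SimpleGraph (Fin N)} {a b : Fin N} (h : G.Adj a b) : Sh G (dl a) (dl b) := by
  intro u v hu hv huv
  have hu' : u = a ∨ u = b := hu.elim (fun h => Or.inl (dl_ne h)) (fun h => Or.inr (dl_ne h))
  have hv' : v = a ∨ v = b := hv.elim (fun h => Or.inl (dl_ne h)) (fun h => Or.inr (dl_ne h))
  rcases hu' with rfl | rfl <;> rcases hv' with rfl | rfl
  · exact absurd rfl huv
  · exact h
  · exact h.symm
  · exact absurd rfl huv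

/-- affine functionals of a point -/
theorem crs_dev (P : Fin N → ℂ) (z p : ℂ) {x : Fin N → ℝ} (hx : ∑ v, x v = 1) :
    crs z (dev P x - p) = ∑ v, x v * crs z (P v - p) := by
  have h1 : dev P x - p = ∑ v, (x v : ℂ) * (P v - p) := by
    unfold dev
    simp only [mul_sub, Finset.sum_sub_distrib]
    rw [← Finset.sum_mul]
    have : (∑ v, (x v : ℂ)) = 1 := by
      rw [← Complex.ofReal_sum, hx]; simp
    rw [this, one_mul]
  rw [h1]
  have h2 : ∀ s : Finset (Fin N), crs z (∑ v ∈ s, (x v : ℂ) * (P v - p))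
      = ∑ v ∈ s, x v * crs z (P v - p) := by
    intro s
    induction s using Finset.induction_on with
    | empty => simp [crs_zero]
    | insert a s ha ih => rw [Finset.sum_insert ha, Finset.sum_insert ha, crs_add, crs_mul, ih]
  exact h2 _

/-- a point of the triangle `a b p` and the line `ab` -/
theorem crs_dev_tri (P : Fin N → ℂ) {a b p : Fin N} {x : Fin N → ℝ} (hx : ∑ v, x v = 1)
    (hs : ∀ v, x v ≠ 0 → v = a ∨ v = b ∨ v = p) :
    crs (P b - P a) (dev P x - P a) = x p * crs (P b - P a) (P p - P a) := by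
  rw [crs_dev P _ _ hx]
  rw [Finset.sum_eq_single p]
  · intro v _ hv
    by_cases h : x v = 0
    · rw [h, zero_mul]
    · rcases hs v h with rfl | rfl | rfl
      · rw [sub_self, crs_zero, mul_zero]
      · rw [crs_self, mul_zero]
      · exact absurd rfl hv
  · intro h; exact absurd (Finset.mem_univ _) h

end Pool.Agent.Helper49.GP
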