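import Pool.Agent.Helper49.GP.StG

namespace Pool.Agent.Helper49.GP

open Pool.Agent.Helper18.GP Relation Classical

theorem m_AL : stAL := by
  intro A B p q t0 h0 h1 hA hB hmin
  obtain ⟨f, hf⟩ : ∃ f : ℝ → ℝ, ∀ t, f t = ‖A - ((1 - t : ℝ) * p + (t : ℝ) * q)‖ +
      ‖((1 - t : ℝ) * p + (t : ℝ) * q) - B‖ := ⟨_, fun _ => rfl⟩
  have hmin' : ∀ t ∈ Set.Icc (0 : ℝ) 1, f t0 ≤ f t := by
    intro t ht
    rw [hf, hf]
    exact hmin t ht
  have htri : ‖A - B‖ ≤ f t0 := by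
    rw [hf]
    have := norm_add_le (A - ((1 - t0 : ℝ) * p + (t0 : ℝ) * q))
      (((1 - t0 : ℝ) * p + (t0 : ℝ) * q) - B)
    rwa [sub_add_sub_cancel] at this
  have hconv : ∀ s t1 : ℝ, 0 ≤ s → s ≤ 1 →
      f ((1 - s) * t0 + s * t1) ≤ (1 - s) * f t0 + s * f t1 := by
    intro s t1 hs0 hs1
    rw [hf, hf, hf]
    have e1 : A - ((1 - ((1 - s) * t0 + s * t1) : ℝ) * p + (((1 - s) * t0 + s * t1 : ℝ) : ℂ) * q) =
        ((1 - s : ℝ) : ℂ) * (A - ((1 - t0 : ℝ) * p + (t0 : ℝ) * q)) +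
        (s : ℂ) * (A - ((1 - t1 : ℝ) * p + (t1 : ℝ) * q)) := by
      push_cast; ring
    have e2 : ((1 - ((1 - s) * t0 + s * t1) : ℝ) * p + (((1 - s) * t0 + s * t1 : ℝ) : ℂ) * q) - B =
        ((1 - s : ℝ) : ℂ) * (((1 - t0 : ℝ) * p + (t0 : ℝ) * q) - B) +
        (s : ℂ) * (((1 - t1 : ℝ) * p + (t1 : ℝ) * q) - B) := by
      push_cast; ring
    have n1 := norm_add_le (((1 - s : ℝ) : ℂ) * (A - ((1 - t0 : ℝ) * p + (t0 : ℝ) * q)))
      ((s : ℂ) * (A - ((1 - t1 : ℝ) * p + (t1 : ℝ) * q)))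
    have n2 := norm_add_le (((1 - s : ℝ) : ℂ) * (((1 - t0 : ℝ) * p + (t0 : ℝ) * q) - B))
      ((s : ℂ) * (((1 - t1 : ℝ) * p + (t1 : ℝ) * q) - B))
    rw [← e1, norm_mul, norm_mul, Complex.norm_real, Complex.norm_real,
      Real.norm_of_nonneg hs0, Real.norm_of_nonneg (by linarith : (0 : ℝ) ≤ 1 - s)] at n1
    rw [← e2, norm_mul, norm_mul, Complex.norm_real, Complex.norm_real,
      Real.norm_of_nonneg hs0, Real.norm_of_nonneg (by linarith : (0 : ℝ) ≤ 1 - s)] at n2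
    linarith
  -- the point of the line on the segment
  obtain ⟨t1, ht1⟩ : ∃ t1 : ℝ, f t1 = ‖A - B‖ := by
    obtain ⟨α, hα⟩ : ∃ α : ℝ, α = crs (q - p) (A - p) := ⟨_, rfl⟩
    obtain ⟨β, hβ⟩ : ∃ β : ℝ, β = crs (q - p) (B - p) := ⟨_, rfl⟩
    rw [← hα] at hA
    rw [← hβ] at hB
    have hne : α - β ≠ 0 := by intro h; linarith
    obtain ⟨lam, hlam⟩ : ∃ lam : ℝ, lam = α / (α - β) := ⟨_, rfl⟩
    have hl0 : 0 ≤ lam := by
      rw [hlam]; exact div_nonneg_of_nonpos hA.le (by linarith)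
    have hl1 : lam ≤ 1 := by
      rw [hlam, div_le_one_of_neg (by linarith)]
      linarith
    have hlm : lam * (β - α) = -α := by
      rw [hlam]; field_simp; ring
    obtain ⟨O, hO⟩ : ∃ O : ℂ, O = A + (lam : ℂ) * (B - A) := ⟨_, rfl⟩
    have hOc : crs (q - p) (O - p) = 0 := by
      have : O - p = (A - p) + (lam : ℂ) * ((B - p) - (A - p)) := by rw [hO]; ring
      rw [this, crs_add, crs_mul, crs_sub (q - p) (B - p) (A - p), ← hα, ← hβ]
      linarith
    have hD : 0 < dt (q - p) (q - p) := by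
      unfold dt
      by_contra hcon
      push Not at hcon
      have r1 : (q - p).re = 0 := by nlinarith [mul_self_nonneg (q - p).re, mul_self_nonneg (q - p).im]
      have r2 : (q - p).im = 0 := by nlinarith [mul_self_nonneg (q - p).re, mul_self_nonneg (q - p).im]
      rw [hα] at hA
      unfold crs at hA
      rw [r1, r2] at hA
      simp at hA
    obtain ⟨t1, ht1⟩ : ∃ t1 : ℝ, t1 = dt (q - p) (O - p) / dt (q - p) (q - p) := ⟨_, rfl⟩
    have hOz : ((1 - t1 : ℝ) * p + (t1 : ℝ) * q) = O := by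
      have e : O - p = (t1 : ℂ) * (q - p) := by
        have k1 : t1 * dt (q - p) (q - p) = dt (q - p) (O - p) := by
          rw [ht1]; field_simp
        unfold dt at k1 hD
        unfold crs at hOc
        obtain ⟨x, hx⟩ : ∃ x, x = (q - p).re := ⟨_, rfl⟩
        obtain ⟨y, hy⟩ : ∃ y, y = (q - p).im := ⟨_, rfl⟩
        obtain ⟨u, hu⟩ : ∃ u, u = (O - p).re := ⟨_, rfl⟩
        obtain ⟨v, hv⟩ : ∃ v, v = (O - p).im := ⟨_, rfl⟩
        rw [← hx, ← hy] at hD k1 hOc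
        rw [← hu, ← hv] at k1 hOc
        have hDn : x * x + y * y ≠ 0 := hD.ne'
        apply Complex.ext
        · rw [Complex.re_ofReal_mul, ← hx, ← hu]
          apply mul_left_cancel₀ hDn
          linear_combination (-x) * k1 - y * hOc
        · rw [Complex.im_ofReal_mul, ← hy, ← hv]
          apply mul_left_cancel₀ hDn
          linear_combination (-y) * k1 + x * hOc
      have : O = p + (t1 : ℂ) * (q - p) := by rw [← e]; ring
      rw [this]
      push_cast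
      ring
    refine ⟨t1, ?_⟩
    rw [hf, hOz]
    have e1 : A - O = (lam : ℂ) * (A - B) := by rw [hO]; ring
    have e2 : O - B = ((1 - lam : ℝ) : ℂ) * (A - B) := by rw [hO]; push_cast; ring
    rw [e1, e2, norm_mul, norm_mul, Complex.norm_real, Complex.norm_real,
      Real.norm_of_nonneg hl0, Real.norm_of_nonneg (by linarith : (0 : ℝ) ≤ 1 - lam)]
    ring
  obtain ⟨m, hm⟩ : ∃ m : ℝ, m = min t0 (1 - t0) := ⟨_, rfl⟩
  have hm0 : 0 < m := by rw [hm]; exact lt_min h0 (by linarith)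
  have hm1 : m ≤ t0 := by rw [hm]; exact min_le_left _ _
  have hm2 : m ≤ 1 - t0 := by rw [hm]; exact min_le_right _ _
  have hab : 0 ≤ |t1 - t0| := abs_nonneg _
  obtain ⟨s, hs⟩ : ∃ s : ℝ, s = m / (1 + |t1 - t0|) := ⟨_, rfl⟩
  have hs0 : 0 < s := by rw [hs]; positivity
  have hs1 : s ≤ 1 := by
    rw [hs, div_le_one (by linarith)]
    linarith
  have hsm : s * |t1 - t0| ≤ m := by
    rw [hs, div_mul_eq_mul_div, div_le_iff₀ (by linarith)]
    nlinarith
  have hle := neg_abs_le (t1 - t0)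
  have hle' := le_abs_self (t1 - t0)
  have hin : (1 - s) * t0 + s * t1 ∈ Set.Icc (0 : ℝ) 1 := by
    constructor <;> nlinarith
  have h2 := hmin' _ hin
  have h3 := hconv s t1 hs0.le hs1
  rw [ht1] at h3
  have h4 : f t0 ≤ ‖A - B‖ := by
    have : s * f t0 ≤ s * ‖A - B‖ := by linarith
    exact le_of_mul_le_mul_left this hs0
  rw [← hf]
  linarith

end Pool.Agent.Helper49.GP
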