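import Pool.Agent.Helper49.GP.Base

/-!
# Gilbert-Pollak, chapter GEO: statements (helper49)

Base.lean: `crs_*` algebra, `between`, `strict_tri`, `line3`, `Ccw_val`, `mem_Arc_ccw`
(every statement on `Ccw`, `Crs`, `=`, `≠` of labels is decided by the two steps
`simp only [Crs, Ccw_val, ne_eq, Fin.ext_iff] at *` and `omega`), `seg_*`,
`dev_seg`, `Sh_of_tri`, `crs_dev`, `crs_dev_tri`. The api (`MetP`, `GlueP`, `stApex`, ...) is in
Helper18/GP/Api.lean. -/

namespace Pool.Agent.Helper49.GP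

open Pool.Agent.Helper18.GP Relation Classical

variable {N : ℕ}

/-- height of the vertex `u` over the line from `v` to `w` (times a constant) -/
noncomputable def hh (P : Fin N → ℂ) (v w u : Fin N) : ℝ := crs (P w - P v) (P u - P v)

/-- position of the projection of `u` to the line from `v` to `w` -/
noncomputable def pr (P : Fin N → ℂ) (v w u : Fin N) : ℝ := dt (P w - P v) (P u - P v)

/-- the edge `xy` crosses the chord `vw`, `x` on the left side of `v → w`, `y` on the right side -/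
def Cr (V : Finset (Fin N)) (G : SimpleGraph (Fin N)) (v w x y : Fin N) : Prop :=
  x ∈ V ∧ y ∈ V ∧ G.Adj x y ∧ Ccw v y w ∧ Ccw w x v

/-- **AL.** Proof. `z t := (1-t) p + t q`, `f t := ‖A - z t‖ + ‖z t - B‖`. `α := crs (q-p) (A-p) < 0`,
`β := crs (q-p) (B-p) > 0`, `lam := α / (α - β) ∈ (0,1)`, `O := A + lam (B - A)`: then
`crs (q-p) (O-p) = 0`, so `O = z t1` with `t1 = dt (q-p) (O-p) / dt (q-p) (q-p)` (`q ≠ p`), and
`f t1 = ‖A - B‖` (`O - A = lam (B-A)`, `B - O = (1-lam)(B-A)`). For `s ∈ (0,1]` small,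
`t := (1-s) t0 + s t1 ∈ [0,1]`, `z t = (1-s) z t0 + s z t1`, so
`f t0 ≤ f t ≤ (1-s) f t0 + s f t1` and `f t0 ≤ f t1 = ‖A - B‖ ≤ f t0`. -/
def stAL : Prop := ∀ (A B p q : ℂ) (t0 : ℝ), 0 < t0 → t0 < 1 → crs (q - p) (A - p) < 0 →
  0 < crs (q - p) (B - p) →
  (∀ t ∈ Set.Icc (0 : ℝ) 1, ‖A - ((1 - t0 : ℝ) * p + (t0 : ℝ) * q)‖ +
      ‖((1 - t0 : ℝ) * p + (t0 : ℝ) * q) - B‖ ≤
    ‖A - ((1 - t : ℝ) * p + (t : ℝ) * q)‖ + ‖((1 - t : ℝ) * p + (t : ℝ) * q) - B‖) →
  ‖A - ((1 - t0 : ℝ) * p + (t0 : ℝ) * q)‖ + ‖((1 - t0 : ℝ) * p + (t0 : ℝ) * q) - B‖ = ‖A - B‖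

/-- **NBR.** two common neighbours of an edge lie on different sides. Proof. On the same side, say
`Ccw a p b` and `Ccw a q b` and (w.l.o.g.) `p` before `q`: the edges `a q` and `p b` interleave,
against `IsTri.nc`. All cyclic order statements: `Ccw_val` and `omega`. -/
def stNbr : Prop := ∀ (N : ℕ) (V : Finset (Fin N)) (G : SimpleGraph (Fin N)), IsTri V G →
  ∀ a ∈ V, ∀ b ∈ V, ∀ p ∈ V, ∀ q ∈ V, G.Adj a b → G.Adj a p → G.Adj p b → G.Adj a q → G.Adj q b →
    p ≠ q → (Ccw a p b ∧ Ccw b q a) ∨ (Ccw b p a ∧ Ccw a q b)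

/-- **FACE.** (uses stNbr) how a chain passes through a point `z` which is not a vertex. Proof.
`¬ Sh G x y` gives `p ≠ q`, not adjacent, `x p ≠ 0` and `y q ≠ 0` (both in the support of `x`, or
both in that of `y`, is impossible because these are cliques; swap the names). The support `S` of
`z` has at least two elements `a ≠ b` (it is nonempty as `∑ z = 1`; if it were `{u}` then
`z = dl u`). `p ∉ S` (else `p`, `q` are adjacent by `Sh G z y`), `q ∉ S`. So `p`, `q` are common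
neighbours of `a`, `b`: by stNbr they are on different sides; swap `a` and `b` such that
`Ccw a p b`, `Ccw b q a`. If `z v ≠ 0`, `v ≠ a, b`: `v` is adjacent to `a`, `b`, `p`, `q`, and
`v ≠ p, q`; stNbr for `v, p` and `v, q` gives `v` on the other side than `p` and than `q`:
contradiction. If `x v ≠ 0`, `v ≠ a, b, p`: `v` is adjacent to `a`, `b` (Sh x z) and to `p`; by stNbr
`Ccw b v a`, then the edges `a b` and `p v` interleave: contradiction to `nc`. Same for `y`. -/
def stFace : Prop := ∀ (N : ℕ) (V : Finset (Fin N)) (G : SimpleGraph (Fin N)), IsTri V G →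
  ∀ x ∈ Pts V G, ∀ z ∈ Pts V G, ∀ y ∈ Pts V G, Sh G x z → Sh G z y → ¬ Sh G x y →
    (∀ u ∈ V, z ≠ dl u) →
    ∃ a ∈ V, ∃ b ∈ V, ∃ p ∈ V, ∃ q ∈ V, ∃ t : ℝ, 0 < t ∧ t < 1 ∧ z = seg a b t ∧
      G.Adj a b ∧ G.Adj a p ∧ G.Adj p b ∧ G.Adj a q ∧ G.Adj q b ∧ Ccw a p b ∧ Ccw b q a ∧
      0 < x p ∧ 0 < y q ∧ (∀ v, x v ≠ 0 → v = a ∨ v = b ∨ v = p) ∧
      (∀ v, y v ≠ 0 → v = a ∨ v = b ∨ v = q)

/-- chains with their number of steps -/
inductive ChN (V : Finset (Fin N)) (G : SimpleGraph (Fin N)) (P : Fin N → ℂ) :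
    ℕ → (Fin N → ℝ) → (Fin N → ℝ) → ℝ → Prop
  | nil (x : Fin N → ℝ) (hx : x ∈ Pts V G) : ChN V G P 0 x x 0
  | cons (n : ℕ) (x y z : Fin N → ℝ) (c : ℝ) (hx : x ∈ Pts V G) (hs : Sh G x y)
      (h : ChN V G P n y z c) : ChN V G P (n + 1) x z (‖dev P x - dev P y‖ + c)

/-- **NE.** adjacent vertices of a strict disc have different positions. Proof. There is a third
vertex `v ∈ V`; `Ccw a v b` or `Ccw b v a` (`omega`); stApex gives a triangle on `ab`, which is not
flat, so `P a ≠ P b` (`crs_self`, `sub_self`). -/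
def stNe : Prop := ∀ (N : ℕ) (V : Finset (Fin N)) (G : SimpleGraph (Fin N)) (P : Fin N → ℂ),
  IsTri V G → St V G P → 3 ≤ V.card → ∀ a ∈ V, ∀ b ∈ V, G.Adj a b → P a ≠ P b

/-- **ENTER.** (uses stMet, stGlue, stApex) a shortest path from a vertex `c` to an inner point
`ξ = seg a b t` of an edge, `c` on the side `Ccw a c b`, passes `a`, or `b`, or enters the triangle at
`ab` through a point `r` off the line `ab`. Proof. stApex for `a b` (with `v = c`) gives `y`,
`Ccw a y b`. If `c = y`: `r = dl y` (`dK (dl y) (dl y) = 0`, and `dK (dl y) ξ = ‖..‖` by `MetP.sh`).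
Otherwise (`omega`) `Ccw a c y` or `Ccw y c b`.
* `Ccw a c y`: `GlueP` for the edge `a y`: `dl c ∈ Pts (Arc V a y)`, `ξ ∈ Pts (Arc V y a)`
(`seg_mem`, `mem_Arc_ccw`), so `dK c ξ = dK c r + dK r ξ`, `r = seg a y t'`, and
`dK r ξ = ‖dev r - dev ξ‖` by `MetP.sh` (`Sh_of_tri`). If `t' = 0` then `r = dl a`: first
alternative (`MetP.symm`). Else `crs (P b - P a) (dev r - P a) = t' * crs (P b - P a) (P y - P a)
< 0` (`crs_dev_tri`, `crs_flip'`, `St` for the triangle `a, y, b`).
* `Ccw y c b`: the same with the edge `y b`: `r = seg y b t'`; `t' = 1`: second alternative. -/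
def stEnter : Prop := ∀ (N : ℕ) (V : Finset (Fin N)) (G : SimpleGraph (Fin N)) (P : Fin N → ℂ),
  IsTri V G → St V G P → ∀ a ∈ V, ∀ b ∈ V, G.Adj a b → ∀ c ∈ V, Ccw a c b →
  ∀ t : ℝ, 0 < t → t < 1 →
    dK V G P (dl c) (seg a b t) = dV V G P c a + dK V G P (dl a) (seg a b t) ∨
    dK V G P (dl c) (seg a b t) = dV V G P c b + dK V G P (dl b) (seg a b t) ∨
    ∃ r ∈ Pts V G, Sh G (dl a) r ∧ Sh G (dl b) r ∧ Sh G r (seg a b t) ∧
      crs (P b - P a) (dev P r - P a) < 0 ∧
      dK V G P (dl c) (seg a b t) =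
        dK V G P (dl c) r + ‖dev P r - dev P (seg a b t)‖

/-- **SGN.** (uses stMet, stGlue, stStraight, stEnter) the ends of an edge which crosses a clear
chord lie strictly on the two sides of its line. Proof. `d := P w - P v`. `GlueP` for the edge
`x y`: `v ∈ Arc V x y`, `w ∈ Arc V y x`, so `dV v w = dK v s + dK s w`, `s = seg x y t`. `t = 0`,
`t = 1` contradict `Clear`. stEnter for `a = x`, `b = y`, `c = v`: in the first alternative
`dV v w = dV v x + dK x s + dK s w ≥ dV v x + dV x w` contradicts `Clear`, the second also. Third: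
`r`. `dV v w = ‖P v - P w‖` (stStraight with `x = dl v`, `y = dl w`), so
`‖P v - dev r‖ + ‖dev r - dev s‖ + ‖dev s - P w‖ ≤ ‖P v - P w‖` (`MetP.low`) and `line3` gives
`dev s - dev r = κ d`, `κ ≥ 0`, `dev s - P v = μ d`. As `crs (P y - P x) (dev s - P x) = 0` and
`crs (P y - P x) (dev r - P x) < 0`: `κ * crs (P y - P x) d > 0`, so
`hh x - hh y = crs d (P x - P y) = crs (P y - P x) d > 0`. And
`0 = crs d (dev s - P v) = (1-t) hh x + t hh y`. So `hh x > 0 > hh y`. -/
def stSgn : Prop := ∀ (N : ℕ) (V : Finset (Fin N)) (G : SimpleGraph (Fin N)) (P : Fin N → ℂ),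
  IsTri V G → St V G P → ∀ v ∈ V, ∀ w ∈ V, Clear V G P v w → ∀ x y, Cr V G v w x y →
    0 < hh P v w x ∧ hh P v w y < 0

/-- **FST.** (uses stNbr) a flip keeps the strict orientation. Proof. Let `x, y, z ∈ V`,
`Ccw x y z`, pairwise `G'`-adjacent. If `{b, d}` is not contained in `{x, y, z}` then all three
pairs are `G`-adjacent (none of them is `{a, c}` as `¬ G'.Adj a c`): use `St V G P`. Otherwise the
third vertex `r` is a common `G'`-neighbour of `b` and `d`, and so are `a` and `c`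
(`G'.Adj a b` etc. from the equivalence); `Ccw b c d`, `Ccw d a b`. By stNbr for `G'` and the edge
`b d` (`r` is not on the other side than both `a` and `c`) `r = a` or `r = c`. The cyclic order
determines `(x, y, z)` up to rotation; use the hypotheses and `crs_rot`, `crs_rot'`. -/
def stFlipSt : Prop := ∀ (N : ℕ) (V : Finset (Fin N)) (G G' : SimpleGraph (Fin N))
  (P : Fin N → ℂ), IsTri V G' → St V G P → ∀ a ∈ V, ∀ b ∈ V, ∀ c ∈ V, ∀ d ∈ V,
  Ccw a b c → Ccw a c d → G.Adj a b → G.Adj b c → G.Adj c d → G.Adj d a →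
  G'.Adj b d → ¬ G'.Adj a c →
  (∀ x ∈ V, ∀ y ∈ V, ¬ ((x = a ∧ y = c) ∨ (x = c ∧ y = a)) →
    ¬ ((x = b ∧ y = d) ∨ (x = d ∧ y = b)) → (G'.Adj x y ↔ G.Adj x y)) →
  0 < crs (P b - P a) (P d - P a) → 0 < crs (P c - P b) (P d - P b) → St V G' P

/-- **MAX.** (uses stApex) the highest crossing edge can be flipped. Notation `h = hh P v w`,
`π = pr P v w`, `D = P w - P v`. Proof. stApex for the edge `z c`: (a) side of `v`
(`Ccw z v c`): `b` with `Ccw z b c`, `G.Adj z b`, `G.Adj b c`; (b) side of `w` (`Ccw c w z`; stApex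
for `c z`): `d` with `Ccw c d z`.
Claim 1: `h c < h b < h z`. `b = v`: `h v = 0`, and `h c < 0 < h z` by `hs`. `Ccw w b v`: then
`Cr b c`, so `h b > 0 > h c` and `hmax` for `(b, c)`: `h b - h c < h z - h c`, or equality of the
heights `h b = h z` and `π z + π c ≤ π b + π c`; in the second case `crs D (P b - P z) = 0` and
`dt D (P b - P z) ≥ 0`, so `P b - P z = κ D` with `κ ≥ 0` (`D ≠ 0`: otherwise all `h` are `0`), and
`0 < crs (P b - P z) (P c - P z) = κ (h c - h z) ≤ 0`, contradiction. `Ccw v b w`: `Cr z b`, `h b < 0`,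
`hmax` for `(z, b)`: `h b > h c` or (`h b = h c`, `π c ≤ π b`, `P b - P c = κ D`, `κ ≥ 0`,
`crs (P b - P z) (P c - P z) = crs (P b - P c) (P c - P z) = κ (h c - h z) ≤ 0`, contradiction).
(`b ≠ w`, and one of the three cases holds, by `omega`.)
Claim 2: `h c ≤ h d ≤ h z`, same case distinction (`d = w`, `Ccw w d v`, `Ccw v d w`), only the
heights.
Put `β := crs (P c - P z) (P b - P z) < 0`, `δ := crs (P c - P z) (P d - P z) > 0`,
`t := β / (β - δ) ∈ (0,1)`, `O := (1-t) P b + t P d`: `crs (P c - P z) (O - P z) = 0`, so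
`O - P z = s (P c - P z)` for a real `s` (`P c ≠ P z`). Heights: `h O = (1-t) h b + t h d` is
strictly between `h c` and `h z`, and `h O = (1-s) h z + s h c`, so `0 < s < 1`. Finally (identities)
`crs (P b - P z) (P d - P z) = s (crs (P b - P z) (P c - P z) + crs (P c - P z) (P d - P z))` and
`crs (P c - P b) (P d - P b) = (1-s) (the same sum)`. -/
def stMax : Prop := ∀ (N : ℕ) (V : Finset (Fin N)) (G : SimpleGraph (Fin N)) (P : Fin N → ℂ),
  IsTri V G → St V G P → ∀ v ∈ V, ∀ w ∈ V,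
  (∀ x y, Cr V G v w x y → 0 < hh P v w x ∧ hh P v w y < 0) →
  ∀ z c, Cr V G v w z c →
  (∀ x y, Cr V G v w x y → hh P v w x - hh P v w y < hh P v w z - hh P v w c ∨
    (hh P v w x - hh P v w y = hh P v w z - hh P v w c ∧
      pr P v w z + pr P v w c ≤ pr P v w x + pr P v w y)) →
  ∃ b ∈ V, ∃ d ∈ V, Ccw z b c ∧ Ccw z c d ∧ G.Adj z b ∧ G.Adj b c ∧ G.Adj c d ∧ G.Adj d z ∧
    hh P v w c < hh P v w b ∧ hh P v w b < hh P v w z ∧ hh P v w c ≤ hh P v w d ∧
    hh P v w d ≤ hh P v w z ∧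
    (∃ s ∈ Set.Icc (0 : ℝ) 1, ∃ t ∈ Set.Icc (0 : ℝ) 1,
      (1 - s : ℝ) * P z + (s : ℝ) * P c = (1 - t : ℝ) * P b + (t : ℝ) * P d) ∧
    0 < crs (P b - P z) (P d - P z) ∧ 0 < crs (P c - P b) (P d - P b)

/-- **CI1.** (uses stFlip, stFlipSt, stSgn, stMax) insertion of one clear chord. Proof. Let `K` be
the set of graphs `G'` with `IsTri V G'`, `St V G' P`, `Iso V G G' P` and
`∀ x ∈ V, ∀ y ∈ V, G.Adj x y → ¬ Crs x y v w → G'.Adj x y`; it is nonempty (`G`) and finite
(`SimpleGraph (Fin N)` is finite). Take `G' ∈ K` with the least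
`Φ G' := ∑ (x, y) with Cr V G' v w x y, (hh P v w x - hh P v w y)` (`Set.exists_min_image`). `v w` is
clear in `G'` (same `dV`), so stSgn applies. If no edge of `G'` crosses: `G'.Adj v w` by
`IsTri.mx` (`Crs v w c d` unfolds to `Cr d c` or `Cr c d`), done. Otherwise choose the crossing edge
`(z, c)` which maximises `hh z - hh c` and among these minimises `pr z + pr c` (twice
`Finset.exists_max_image`, on `V ×ˢ V` filtered). stMax gives `b`, `d`; stFlip (quadrilateral
`a := z, b, c, d`) gives `G''`, stFlipSt gives `St V G'' P`, Iso is transitive, the removed edge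
`z c` interleaves `v w`; so `G'' ∈ K`. The crossing edges of `G''` are those of `G'` without
`(z, c)` and possibly with `(b, d)` or `(d, b)`, whose weight is `< hh z - hh c` by the height
inequalities; so `Φ G'' < Φ G'`: contradiction. -/
def stCI1 : Prop := ∀ (N : ℕ) (V : Finset (Fin N)) (G : SimpleGraph (Fin N)) (P : Fin N → ℂ),
  IsTri V G → St V G P → ∀ v ∈ V, ∀ w ∈ V, v ≠ w → Clear V G P v w →
    ∃ G', IsTri V G' ∧ St V G' P ∧ Iso V G G' P ∧ G'.Adj v w ∧
      ∀ x ∈ V, ∀ y ∈ V, G.Adj x y → ¬ Crs x y v w → G'.Adj x y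

/-! Proofs of the four statements of the api:

**stStraight** (uses stMet, stAL, stFace). `Ch x y c ↔ ∃ n, ChN n x y c`; `ChN m x y c`, `ChN n y z c'`
give `ChN (m+n) x z (c + c')`. Claim by induction on `n`: if `ChN n x y (dK x y)`, no `m < n` has
`ChN m x y (dK x y)` and no vertex is between (the hypothesis of stStraight) then
`dK x y = ‖dev x - dev y‖`. `n = 0`: `x = y`. `n = 1`: `MetP.sh`. `n + 2`: `x → z → z' → .. → y`.
(a) `z` is not a vertex `dl u` (if `dl u ≠ x, y` it is between; if `dl u = x` the rest is a chain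
from `x` with fewer steps and length `≤ dK x y`; if `dl u = y` one step suffices). `¬ Sh x z'` (else
drop `z`). stFace for `x, z, z'`: `z = seg a b t0` etc. For `t ∈ [0,1]` the point `seg a b t` can
replace `z`, so `‖x - z‖ + ‖z - z'‖ ≤ ‖x - seg t‖ + ‖seg t - z'‖` (developed), and the two sides of the
line `ab` are given by `crs_dev_tri`, `crs_flip'` and `St`. stAL: `‖x - z‖ + ‖z - z'‖ = ‖x - z'‖`, and
`dev z ≠ dev x, dev z'` (they are off the line `ab`); in particular `dK x z > 0`.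
(b) `dK z y` is the length of the rest (otherwise `x y` could be shortened), with the minimal number
`n + 1` of steps; no vertex is between `z` and `y`: if `dK z y = dK z u + dK u y`, `dl u ≠ z, y`, then
`dK x u + dK u y ≤ dK x y`, so `dl u = x` by hypothesis, but then `dK z y ≥ dK x y > dK z y`.
(c) Induction: `dK z y = ‖dev z - dev y‖`, so `dev z'` is on the segment from `dev z` to `dev y`
(`MetP.low`), and `dev z` is between `dev x` and `dev z' ≠ dev z`: so `dev z` is between `dev x` and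
`dev y` (`SameRay` or explicit multiples) and `dK x y = ‖x - z‖ + ‖z - y‖ = ‖x - y‖`.

**stClearEdge** (uses stMet, stGlue, stPos, stApex, stNe). `dV a b = ‖P a - P b‖` (`MetP.sh`,
`Sh_dl`). Let `u ≠ a, b`; by symmetry (`Clear` and `dV` are symmetric) `Ccw a u b`. Apex `c`,
`Ccw a c b`. `u = c`: `strict_tri`. `Ccw a u c`: `GlueP` for `a c` and `dl u`, `dl b`:
`dV u b = dK u s + dK s b`, `s = seg a c t`. `t = 0`: `s = dl a`, `dV a u + dV u b ≥ dV a u + dV u a +
dV a b > dV a b` as `dV a u > 0` (stPos, `MetP.nonneg`, stNe). `t > 0`: `dV a u + dV u b ≥ dK a s + dK s b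
= ‖P a - s‖ + ‖s - P b‖ > ‖P a - P b‖` (`strict_tri`, `crs (s - a) (b - a) = t crs (c-a) (b-a) > 0`).
`Ccw c u b`: the same with `GlueP` for `c b` and `dl u`, `dl a`.

**stCI** (uses stCI1): `Finset.induction_on C`; `Clear` depends only on `dV`.

**stXing** (uses stMet, stGlue, stPos, stStraight, stCI1, stEnter, stNe). By stCI1 (chord `a b`) and
`Iso` assume `G.Adj a b`. By symmetry (`c ↔ d`) `Ccw a c b`, `Ccw b d a`. `GlueP` for `a b`:
`dV c d = dK c ξ + dK ξ d`, `ξ = seg a b t`; `t = 0, 1` contradict `Clear c d`. `α = ‖P a - ξ‖ =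
t ‖P b - P a‖`, `β = (1-t) ‖P b - P a‖`, `γ = dK c ξ`, `δ = dK ξ d` (positive by stPos, `seg_ne_dl`).
stEnter for `c`: the first alternative gives `dV c d = dV c a + dK a ξ + dK ξ d ≥ dV c a + dV a d`,
against `Clear c d`; the second also; the third: `dV a c ≤ dK a r + dK r c = ‖P a - r‖ + dK r c <
‖P a - ξ‖ + ‖ξ - r‖ + dK r c = α + γ` by `strict_tri` (`crs (ξ - a) (r - a) = t crs (b - a) (r - a) ≠ 0`);
same for `b`. The same for `d` with stEnter for the edge `b a` and `seg_swap`. -/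

end Pool.Agent.Helper49.GP
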